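import Mathlib
import Pool.Agent.Helper941.Defs

namespace Pool.Agent.Helper941.IsoProb

open Encodable Denumerable

variable {α β γ : Type} [Primcodable α] [Primcodable β] [Primcodable γ]

theorem Sigma0.of_iff {n : ℕ} {P P' : α → Prop} (h : Sigma0 n P) (e : ∀ a, P' a ↔ P a) :
    Sigma0 n P' := by
  have : P' = P := funext fun a => propext (e a)
  rw [this]; exact h

theorem Pi0.of_iff {n : ℕ} {P P' : α → Prop} (h : Pi0 n P) (e : ∀ a, P' a ↔ P a) :
    Pi0 n P' := Sigma0.of_iff h fun a => not_congr (e a)

theorem sigma0_zero {P : α → Prop} : Sigma0 0 P ↔ ComputablePred P := Iff.rfl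

theorem sigma0_succ {n : ℕ} {P : α → Prop} :
    Sigma0 (n + 1) P ↔ ∃ Q : α × ℕ → Prop, Sigma0 n Q ∧ ∀ a, P a ↔ ∃ y, ¬ Q (a, y) := Iff.rfl

theorem computablePred_comp {P : β → Prop} (h : ComputablePred P) {f : α → β}
    (hf : Computable f) : ComputablePred fun a => P (f a) := by
  obtain ⟨g, hg, rfl⟩ := ComputablePred.computable_iff.1 h
  exact ComputablePred.computable_iff.2 ⟨fun a => g (f a), hg.comp hf, rfl⟩

theorem Sigma0.comp {n : ℕ} : ∀ {α β : Type} [Primcodable α] [Primcodable β] {P : β → Prop}
    (_ : Sigma0 n P) {f : α → β} (_ : Computable f), Sigma0 n fun a => P (f a) := by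
  induction n with
  | zero =>
    intro α β _ _ P h f hf
    exact computablePred_comp h hf
  | succ n ih =>
    intro α β _ _ P h f hf
    obtain ⟨Q, hQ, e⟩ := h
    refine ⟨fun p => Q (f p.1, p.2), ih hQ (Computable.pair (hf.comp Computable.fst) Computable.snd),
      fun a => e (f a)⟩

theorem Pi0.comp {n : ℕ} {P : β → Prop} (h : Pi0 n P) {f : α → β} (hf : Computable f) :
    Pi0 n fun a => P (f a) := Sigma0.comp (P := fun b => ¬ P b) h hf

theorem Sigma0.not {n : ℕ} {P : α → Prop} (h : Sigma0 n P) : Pi0 n fun a => ¬ P a :=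
  Sigma0.of_iff h fun _ => not_not

theorem Pi0.not {n : ℕ} {P : α → Prop} (h : Pi0 n P) : Sigma0 n fun a => ¬ P a := h

theorem Pi0.toSigma {n : ℕ} {P : α → Prop} (h : Pi0 n P) : Sigma0 (n + 1) P :=
  ⟨fun p => ¬ P p.1, Sigma0.comp (P := fun a => ¬ P a) h Computable.fst, fun a => by simp⟩

theorem Sigma0.toPi {n : ℕ} {P : α → Prop} (h : Sigma0 n P) : Pi0 (n + 1) P :=
  Pi0.toSigma (P := fun a => ¬ P a) h.not

theorem ComputablePred.sigma {n : ℕ} : ∀ {α : Type} [Primcodable α] {P : α → Prop},
    ComputablePred P → Sigma0 n P := by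
  induction n with
  | zero => intro α _ P h; exact h
  | succ n ih =>
    intro α _ P h
    exact ⟨fun p => ¬ P p.1, ih (computablePred_comp h.not Computable.fst), fun a => by simp⟩

theorem ComputablePred.pi {n : ℕ} {P : α → Prop} (h : ComputablePred P) : Pi0 n P :=
  ComputablePred.sigma h.not

theorem Sigma0.succ {n : ℕ} : ∀ {α : Type} [Primcodable α] {P : α → Prop},
    Sigma0 n P → Sigma0 (n + 1) P := by
  induction n with
  | zero => intro α _ P h; exact ComputablePred.sigma h
  | succ n ih =>
    intro α _ P h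
    obtain ⟨Q, hQ, e⟩ := h
    exact ⟨Q, ih hQ, e⟩

theorem Pi0.succ {n : ℕ} {P : α → Prop} (h : Pi0 n P) : Pi0 (n + 1) P := Sigma0.succ h

theorem computablePred_and {P Q : α → Prop} (hP : ComputablePred P) (hQ : ComputablePred Q) :
    ComputablePred fun a => P a ∧ Q a := by
  obtain ⟨f, hf, rfl⟩ := ComputablePred.computable_iff.1 hP
  obtain ⟨g, hg, rfl⟩ := ComputablePred.computable_iff.1 hQ
  refine ComputablePred.computable_iff.2 ⟨fun a => f a && g a, ?_, ?_⟩
  · exact (Primrec.and.to_comp).comp hf hg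
  · funext a; simp

theorem computablePred_or {P Q : α → Prop} (hP : ComputablePred P) (hQ : ComputablePred Q) :
    ComputablePred fun a => P a ∨ Q a := by
  obtain ⟨f, hf, rfl⟩ := ComputablePred.computable_iff.1 hP
  obtain ⟨g, hg, rfl⟩ := ComputablePred.computable_iff.1 hQ
  refine ComputablePred.computable_iff.2 ⟨fun a => f a || g a, ?_, ?_⟩
  · exact (Primrec.or.to_comp).comp hf hg
  · funext a; simp

theorem computable_unpair_fst {f : α → ℕ} (hf : Computable f) :
    Computable fun a => (f a).unpair.1 :=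
  Computable.fst.comp (Computable.unpair.comp hf)

theorem computable_unpair_snd {f : α → ℕ} (hf : Computable f) :
    Computable fun a => (f a).unpair.2 :=
  Computable.snd.comp (Computable.unpair.comp hf)

theorem sigma0_and_or {n : ℕ} : ∀ {α : Type} [Primcodable α] {P P' : α → Prop},
    Sigma0 n P → Sigma0 n P' → Sigma0 n (fun a => P a ∧ P' a) ∧ Sigma0 n (fun a => P a ∨ P' a) := by
  induction n with
  | zero => intro α _ P P' h h'; exact ⟨computablePred_and h h', computablePred_or h h'⟩
  | succ n ih =>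
    intro α _ P P' h h'
    obtain ⟨Q, hQ, e⟩ := h
    obtain ⟨Q', hQ', e'⟩ := h'
    constructor
    · refine ⟨fun p => Q (p.1, p.2.unpair.1) ∨ Q' (p.1, p.2.unpair.2), (ih ?_ ?_).2, ?_⟩
      · exact hQ.comp (Computable.pair Computable.fst (computable_unpair_fst Computable.snd))
      · exact hQ'.comp (Computable.pair Computable.fst (computable_unpair_snd Computable.snd))
      · intro a
        show (P a ∧ P' a) ↔ ∃ y : ℕ, ¬ (Q (a, y.unpair.1) ∨ Q' (a, y.unpair.2))
        rw [e, e']
        constructor
        · rintro ⟨⟨y, hy⟩, ⟨z, hz⟩⟩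
          exact ⟨Nat.pair y z, by simpa using ⟨hy, hz⟩⟩
        · rintro ⟨w, hw⟩
          rw [not_or] at hw
          exact ⟨⟨_, hw.1⟩, ⟨_, hw.2⟩⟩
    · refine ⟨fun p => Q p ∧ Q' p, (ih hQ hQ').1, ?_⟩
      intro a
      show (P a ∨ P' a) ↔ ∃ y, ¬ (Q (a, y) ∧ Q' (a, y))
      rw [e, e', ← exists_or]
      exact exists_congr fun y => (not_and_or).symm

theorem Sigma0.and {n : ℕ} {P P' : α → Prop} (h : Sigma0 n P) (h' : Sigma0 n P') :
    Sigma0 n (fun a => P a ∧ P' a) := (sigma0_and_or h h').1

theorem Sigma0.or {n : ℕ} {P P' : α → Prop} (h : Sigma0 n P) (h' : Sigma0 n P') :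
    Sigma0 n (fun a => P a ∨ P' a) := (sigma0_and_or h h').2

theorem Pi0.and {n : ℕ} {P P' : α → Prop} (h : Pi0 n P) (h' : Pi0 n P') :
    Pi0 n (fun a => P a ∧ P' a) :=
  Sigma0.of_iff (Sigma0.or h h') fun _ => not_and_or

theorem Pi0.or {n : ℕ} {P P' : α → Prop} (h : Pi0 n P) (h' : Pi0 n P') :
    Pi0 n (fun a => P a ∨ P' a) :=
  Sigma0.of_iff (Sigma0.and h h') fun _ => not_or

theorem Sigma0.ex {n : ℕ} {P : α × ℕ → Prop} (h : Sigma0 (n + 1) P) :
    Sigma0 (n + 1) fun a => ∃ y, P (a, y) := by
  obtain ⟨Q, hQ, e⟩ := h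
  refine ⟨fun p => Q ((p.1, p.2.unpair.1), p.2.unpair.2), hQ.comp ?_, ?_⟩
  · exact Computable.pair (Computable.pair Computable.fst (computable_unpair_fst Computable.snd))
      (computable_unpair_snd Computable.snd)
  · intro a
    constructor
    · rintro ⟨y, hy⟩
      obtain ⟨z, hz⟩ := (e _).1 hy
      exact ⟨Nat.pair y z, by simpa using hz⟩
    · rintro ⟨w, hw⟩
      exact ⟨_, (e _).2 ⟨_, hw⟩⟩

theorem Pi0.all {n : ℕ} {P : α × ℕ → Prop} (h : Pi0 (n + 1) P) :
    Pi0 (n + 1) fun a => ∀ y, P (a, y) :=
  Sigma0.of_iff (Sigma0.ex (P := fun p => ¬ P p) h) fun _ => by push Not; rfl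

/-- existential quantification over any coded inhabited type -/
theorem Sigma0.ex' {n : ℕ} {P : α × β → Prop} (h : Sigma0 (n + 1) P) :
    Sigma0 (n + 1) fun a => ∃ y, P (a, y) := by
  by_cases hβ : Nonempty β
  · obtain ⟨b0⟩ := hβ
    have key : Sigma0 (n + 1) (fun p : α × ℕ =>
        (decode (α := β) p.2).isSome = true ∧ P (p.1, (decode (α := β) p.2).getD b0)) := by
      refine Sigma0.and (ComputablePred.sigma ?_) (h.comp ?_)
      · refine ComputablePred.computable_iff.2
          ⟨fun p : α × ℕ => (decode (α := β) p.2).isSome, ?_, rfl⟩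
        exact (Primrec.option_isSome.to_comp).comp (Computable.decode.comp Computable.snd)
      · refine Computable.pair Computable.fst ?_
        exact (Primrec.option_getD.to_comp).comp (Computable.decode.comp Computable.snd)
          (Computable.const b0)
    refine (Sigma0.ex key).of_iff fun a => ?_
    constructor
    · rintro ⟨y, hy⟩
      exact ⟨encode y, by simpa using hy⟩
    · rintro ⟨k, _, hk⟩
      exact ⟨_, hk⟩
  · have : ∀ a, (∃ y, P (a, y)) ↔ False := by
      intro a
      simp only [iff_false]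
      rintro ⟨y, _⟩
      exact hβ ⟨y⟩
    refine (ComputablePred.sigma (P := fun _ : α => False) ?_).of_iff this
    exact ComputablePred.computable_iff.2 ⟨fun _ => false, Computable.const _, by funext a; simp⟩

theorem Pi0.all' {n : ℕ} {P : α × β → Prop} (h : Pi0 (n + 1) P) :
    Pi0 (n + 1) fun a => ∀ y, P (a, y) :=
  Sigma0.of_iff (Sigma0.ex' (P := fun p => ¬ P p) h) fun _ => by push Not; rfl

/-- finite conjunctions/disjunctions -/
theorem sigma0_list_ex {n : ℕ} (P : ℕ → α → Prop) (l : List ℕ) (h : ∀ i ∈ l, Sigma0 n (P i)) :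
    Sigma0 n fun a => ∃ i ∈ l, P i a := by
  induction l with
  | nil =>
    refine (ComputablePred.sigma (P := fun _ : α => False) ?_).of_iff (by simp)
    exact ComputablePred.computable_iff.2 ⟨fun _ => false, Computable.const _, by funext a; simp⟩
  | cons i l ih =>
    refine (Sigma0.or (h i (by simp)) (ih fun j hj => h j (by simp [hj]))).of_iff ?_
    intro a
    simp

theorem sigma0_list_all {n : ℕ} (P : ℕ → α → Prop) (l : List ℕ) (h : ∀ i ∈ l, Sigma0 n (P i)) :
    Sigma0 n fun a => ∀ i ∈ l, P i a := by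
  induction l with
  | nil =>
    refine (ComputablePred.sigma (P := fun _ : α => True) ?_).of_iff (by simp)
    exact ComputablePred.computable_iff.2 ⟨fun _ => true, Computable.const _, by funext a; simp⟩
  | cons i l ih =>
    refine (Sigma0.and (h i (by simp)) (ih fun j hj => h j (by simp [hj]))).of_iff ?_
    intro a
    simp

/-- bounded quantifiers -/
theorem computable_ball {P : α × ℕ → Prop} (h : ComputablePred P) :
    ComputablePred fun p : α × ℕ => ∀ y < p.2, P (p.1, y) := by
  obtain ⟨f, hf, rfl⟩ := ComputablePred.computable_iff.1 h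
  refine ComputablePred.computable_iff.2
    ⟨fun p : α × ℕ => Nat.rec true (fun y b => b && f (p.1, y)) p.2, ?_, ?_⟩
  · refine Computable.nat_rec (f := fun p : α × ℕ => p.2) (g := fun _ => true)
      (h := fun (p : α × ℕ) (q : ℕ × Bool) => q.2 && f (p.1, q.1)) Computable.snd
      (Computable.const true) ?_
    refine (Primrec.and.to_comp).comp (Computable.snd.comp Computable.snd) (hf.comp ?_)
    exact Computable.pair (Computable.fst.comp Computable.fst)
      (Computable.fst.comp Computable.snd)
  · funext p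
    obtain ⟨a, k⟩ := p
    simp only [eq_iff_iff]
    induction k with
    | zero => simp
    | succ k ih =>
      simp only [Bool.and_eq_true]
      rw [← ih]
      constructor
      · intro h
        exact ⟨fun y hy => h y (by omega), h k (by omega)⟩
      · rintro ⟨h1, h2⟩ y hy
        rcases Nat.lt_succ_iff_lt_or_eq.1 hy with h | h
        · exact h1 y h
        · rw [h]; exact h2

theorem computable_bex {P : α × ℕ → Prop} (h : ComputablePred P) :
    ComputablePred fun p : α × ℕ => ∃ y < p.2, P (p.1, y) := by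
  refine (computable_ball (P := fun p => ¬ P p) h.not).not.of_eq ?_
  intro p
  push Not
  rfl

/-- extraction of the `i`-th entry of a coded list -/
def ent (w i : ℕ) : ℕ := ((ofNat (List ℕ) w)[i]?).getD 0

theorem computable_ent {f g : α → ℕ} (hf : Computable f) (hg : Computable g) :
    Computable fun a => ent (f a) (g a) := by
  unfold ent
  refine (Primrec.option_getD.to_comp).comp
    (Computable.list_getElem?.comp ((Computable.ofNat (List ℕ)).comp hf) hg) (Computable.const 0)

theorem exists_ent (k : ℕ) (f : ℕ → ℕ) : ∃ w, ∀ i < k, ent w i = f i := by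
  refine ⟨encode ((List.range k).map f), fun i hi => ?_⟩
  unfold ent
  rw [ofNat_encode]
  simp [hi]

theorem nat_lt_comp {f g : α → ℕ} (hf : Computable f) (hg : Computable g) :
    ComputablePred fun a => f a < g a := by
  refine ComputablePred.computable_iff.2 ⟨fun a => decide (f a < g a), ?_, ?_⟩
  · exact (Primrec.nat_lt.decide.to_comp).comp hf hg
  · funext a; simp

theorem nat_le_comp {f g : α → ℕ} (hf : Computable f) (hg : Computable g) :
    ComputablePred fun a => f a ≤ g a := by
  refine ComputablePred.computable_iff.2 ⟨fun a => decide (f a ≤ g a), ?_, ?_⟩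
  · exact (Primrec.nat_le.decide.to_comp).comp hf hg
  · funext a; simp

theorem eq_comp {δ : Type} [Primcodable δ] {f g : α → δ} (hf : Computable f)
    (hg : Computable g) : ComputablePred fun a => f a = g a := by
  classical
  refine ComputablePred.computable_iff.2 ⟨fun a => decide (f a = g a), ?_, ?_⟩
  · exact (Primrec.eq.decide.to_comp).comp hf hg
  · funext a; simp

theorem sigma0_bounded {n : ℕ} : ∀ {α : Type} [Primcodable α] {P : α × ℕ → Prop},
    Sigma0 n P → Sigma0 n (fun p : α × ℕ => ∀ y < p.2, P (p.1, y)) ∧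
      Sigma0 n (fun p : α × ℕ => ∃ y < p.2, P (p.1, y)) := by
  induction n with
  | zero => intro α _ P h; exact ⟨computable_ball h, computable_bex h⟩
  | succ n ih =>
    intro α _ P h
    obtain ⟨Q, hQ, e⟩ := h
    constructor
    · -- ∀ y < k, ∃ z, ¬ Q ((a,y),z)  ↔ ∃ w, ¬ ∃ y < k, Q ((a,y), ent w y)
      have h1 : Sigma0 n (fun p : (α × ℕ) × ℕ => Q ((p.1.1, p.2), ent p.1.2 p.2)) := by
        refine hQ.comp ?_
        refine Computable.pair (Computable.pair (Computable.fst.comp Computable.fst)
          Computable.snd) (computable_ent (Computable.snd.comp Computable.fst) Computable.snd)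
      have h2 := (ih h1).2
      refine ⟨fun p => ∃ y < p.1.2, Q ((p.1.1, y), ent p.2 y), ?_, ?_⟩
      · refine h2.comp (f := fun p : (α × ℕ) × ℕ => ((p.1.1, p.2), p.1.2)) ?_
        exact Computable.pair (Computable.pair (Computable.fst.comp Computable.fst)
          Computable.snd) (Computable.snd.comp Computable.fst)
      · rintro ⟨a, k⟩
        simp only
        constructor
        · intro h
          have : ∀ y, ∃ z, y < k → ¬ Q ((a, y), z) := by
            intro y
            by_cases hy : y < k
            · obtain ⟨z, hz⟩ := (e _).1 (h y hy)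
              exact ⟨z, fun _ => hz⟩
            · exact ⟨0, fun h => absurd h hy⟩
          choose f hf using this
          obtain ⟨w, hw⟩ := exists_ent k f
          refine ⟨w, ?_⟩
          rintro ⟨y, hy, hq⟩
          rw [hw y hy] at hq
          exact hf y hy hq
        · rintro ⟨w, hw⟩ y hy
          exact (e _).2 ⟨ent w y, fun hq => hw ⟨y, hy, hq⟩⟩
    · have h1 : Sigma0 (n + 1) (fun p : (α × ℕ) × ℕ => p.2 < p.1.2 ∧ P (p.1.1, p.2)) := by
        have hP : Sigma0 (n + 1) P := ⟨Q, hQ, e⟩
        refine Sigma0.and (ComputablePred.sigma ?_) (hP.comp ?_)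
        · exact nat_lt_comp Computable.snd (Computable.snd.comp Computable.fst)
        · exact Computable.pair (Computable.fst.comp Computable.fst) Computable.snd
      exact (Sigma0.ex h1).of_iff fun p => Iff.rfl

theorem Sigma0.ball {n : ℕ} {P : α × ℕ → Prop} (h : Sigma0 n P) {f : α → ℕ}
    (hf : Computable f) : Sigma0 n fun a => ∀ y < f a, P (a, y) :=
  Sigma0.comp (sigma0_bounded h).1 (Computable.pair Computable.id hf)

theorem Sigma0.bex {n : ℕ} {P : α × ℕ → Prop} (h : Sigma0 n P) {f : α → ℕ}
    (hf : Computable f) : Sigma0 n fun a => ∃ y < f a, P (a, y) :=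
  Sigma0.comp (sigma0_bounded h).2 (Computable.pair Computable.id hf)

end Pool.Agent.Helper941.IsoProb
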