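import Mathlib
import Pool.Agent.Helper941.Arith

namespace Pool.Agent.Helper941.IsoProb

open Encodable Denumerable Nat.Partrec

variable {α β γ : Type} [Primcodable α] [Primcodable β] [Primcodable γ]

/-- halting within `s` steps -/
def haltsIn (c : Code) (x s : ℕ) : Bool := (Code.evaln s c x).isSome

theorem haltsIn_iff (c : Code) (x : ℕ) : (Code.eval c x).Dom ↔ ∃ s, haltsIn c x s = true := by
  unfold haltsIn
  constructor
  · intro h
    obtain ⟨y, hy⟩ := Part.dom_iff_mem.1 h
    obtain ⟨k, hk⟩ := Code.evaln_complete.1 hy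
    exact ⟨k, by rw [Option.mem_def] at hk; rw [hk]; rfl⟩
  · rintro ⟨s, hs⟩
    obtain ⟨y, hy⟩ := Option.isSome_iff_exists.1 hs
    exact Part.dom_iff_mem.2 ⟨y, Code.evaln_sound (k := s) (by simpa using hy)⟩

theorem haltsIn_mono (c : Code) (x : ℕ) {s t : ℕ} (hst : s ≤ t) (h : haltsIn c x s = true) :
    haltsIn c x t = true := by
  unfold haltsIn at *
  obtain ⟨y, hy⟩ := Option.isSome_iff_exists.1 h
  have := Code.evaln_mono hst (by simpa using hy : y ∈ Code.evaln s c x)
  rw [Option.mem_def] at this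
  rw [this]; rfl

theorem primrec_haltsIn {f : α → Code} {g h : α → ℕ} (hf : Primrec f) (hg : Primrec g)
    (hh : Primrec h) : Primrec fun a => haltsIn (f a) (g a) (h a) := by
  unfold haltsIn
  exact Primrec.option_isSome.comp
    (Code.primrec_evaln.comp (Primrec.pair (Primrec.pair hh hf) hg))

/-- recursively enumerable predicates are given by a code -/
theorem sigma1_code {P : α → Prop} (h : Sigma0 1 P) :
    ∃ c : Code, ∀ a, P a ↔ (Code.eval c (encode a)).Dom := by
  obtain ⟨Q, hQ, e⟩ := h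
  obtain ⟨f, hf, rfl⟩ := ComputablePred.computable_iff.1 hQ
  have h1 : Partrec (fun a : α => Nat.rfind fun y => Part.some (!(f (a, y)))) := by
    refine Partrec.rfind (p := fun a y => Part.some (!(f (a, y)))) ?_
    exact ((Primrec.not.to_comp).comp (hf.comp Computable.id)).partrec
  obtain ⟨c, hc⟩ := Code.exists_code.1 h1
  refine ⟨c, fun a => ?_⟩
  rw [e, hc]
  simp only [encodek, Part.coe_some, Part.bind_some]
  constructor
  · rintro ⟨y, hy⟩
    simp only [Bool.not_eq_true] at hy
    have : (Nat.rfind fun y => Part.some (!(f (a, y)))).Dom :=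
      Nat.rfind_dom.2 ⟨y, by simp [hy], fun _ => trivial⟩
    exact this
  · intro hd
    have hd' : (Nat.rfind fun y => Part.some (!(f (a, y)))).Dom := hd
    obtain ⟨y, hy, _⟩ := Nat.rfind_dom.1 hd'
    exact ⟨y, by simpa using hy⟩

theorem sigma1_primrec {P : α → Prop} (h : Sigma0 1 P) :
    ∃ f : α → ℕ → Bool, Primrec₂ f ∧ (∀ a s t, s ≤ t → f a s = true → f a t = true) ∧
      ∀ a, P a ↔ ∃ s, f a s = true := by
  obtain ⟨c, hc⟩ := sigma1_code h
  refine ⟨fun a s => haltsIn c (encode a) s, ?_, ?_, ?_⟩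
  · exact primrec_haltsIn (Primrec.const c) (Primrec.encode.comp Primrec.fst) Primrec.snd
  · intro a s t hst; exact haltsIn_mono _ _ hst
  · intro a; rw [hc, haltsIn_iff]

theorem sigma1_of_primrec {P : α → Prop} {f : α → ℕ → Bool} (hf : Primrec₂ f)
    (e : ∀ a, P a ↔ ∃ s, f a s = true) : Sigma0 1 P := by
  refine ⟨fun p => ¬ (f p.1 p.2 = true), ?_, fun a => by rw [e]; simp⟩
  refine ComputablePred.not ?_
  exact ComputablePred.computable_iff.2 ⟨fun p => f p.1 p.2, hf.to_comp, rfl⟩

/-- universal predicates: `Un n` is universal for level `n + 1`. -/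
def Un : ℕ → ℕ × ℕ → Prop
  | 0, p => (Code.eval (ofNat Code p.1) p.2).Dom
  | n + 1, p => ∃ y, ¬ Un n (p.1, Nat.pair p.2 y)

theorem sigma_Un (n : ℕ) : Sigma0 (n + 1) (Un n) := by
  induction n with
  | zero =>
    refine sigma1_of_primrec (f := fun p s => haltsIn (ofNat Code p.1) p.2 s) ?_
      (fun p => haltsIn_iff _ _)
    exact primrec_haltsIn ((Primrec.ofNat Code).comp (Primrec.fst.comp Primrec.fst))
      (Primrec.snd.comp Primrec.fst) Primrec.snd
  | succ n ih =>
    refine ⟨fun q => Un n (q.1.1, Nat.pair q.1.2 q.2), ih.comp ?_, fun p => Iff.rfl⟩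
    refine Computable.pair (Computable.fst.comp Computable.fst) ?_
    exact (Primrec₂.natPair.to_comp).comp (Computable.snd.comp Computable.fst) Computable.snd

theorem Un_universal (n : ℕ) : ∀ {P : ℕ → Prop}, Sigma0 (n + 1) P → ∃ e, ∀ x, P x ↔ Un n (e, x) := by
  induction n with
  | zero =>
    intro P h
    obtain ⟨c, hc⟩ := sigma1_code h
    refine ⟨encode c, fun x => ?_⟩
    show P x ↔ (Code.eval (ofNat Code (encode c)) x).Dom
    rw [ofNat_encode, hc]
    rfl
  | succ n ih =>
    intro P h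
    obtain ⟨Q, hQ, e⟩ := h
    have : Sigma0 (n + 1) (fun x : ℕ => Q (x.unpair)) := Sigma0.comp hQ Computable.unpair
    obtain ⟨i, hi⟩ := ih this
    refine ⟨i, fun x => ?_⟩
    rw [e]
    show _ ↔ ∃ y, ¬ Un n (i, Nat.pair x y)
    refine exists_congr fun y => not_congr ?_
    rw [← hi (Nat.pair x y), Nat.unpair_pair]

/-- two disjoint `Σ⁰_{n+2}` sets which cannot be separated by a `Δ⁰_{n+2}` set -/
theorem exists_inseparable (n : ℕ) : ∃ A B : ℕ → Prop, Sigma0 (n + 2) A ∧ Sigma0 (n + 2) B ∧
    (∀ x, A x → B x → False) ∧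
    ∀ D : ℕ → Prop, Sigma0 (n + 2) D → Pi0 (n + 2) D → (∀ x, B x → D x) →
      (∀ x, A x → D x → False) → False := by
  have hU := sigma_Un n
  have c1 : Computable fun p : ℕ × ℕ => (p.1.unpair.1, Nat.pair p.1 p.2) :=
    Computable.pair (computable_unpair_fst Computable.fst)
      ((Primrec₂.natPair.to_comp).comp Computable.fst Computable.snd)
  have c2 : Computable fun p : ℕ × ℕ => (p.1.unpair.2, Nat.pair p.1 p.2) :=
    Computable.pair (computable_unpair_snd Computable.fst)
      ((Primrec₂.natPair.to_comp).comp Computable.fst Computable.snd)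
  have U1 : Sigma0 (n + 1) fun p : ℕ × ℕ => Un n (p.1.unpair.1, Nat.pair p.1 p.2) := hU.comp c1
  have U2 : Sigma0 (n + 1) fun p : ℕ × ℕ => Un n (p.1.unpair.2, Nat.pair p.1 p.2) := hU.comp c2
  refine ⟨fun x => ∃ y, ¬ Un n (x.unpair.1, Nat.pair x y) ∧
      ∀ z < y, Un n (x.unpair.2, Nat.pair x z),
    fun x => ∃ y, ¬ Un n (x.unpair.2, Nat.pair x y) ∧
      ∀ z < y + 1, Un n (x.unpair.1, Nat.pair x z), ?_, ?_, ?_, ?_⟩
  · refine Sigma0.ex (P := fun p : ℕ × ℕ => ¬ Un n (p.1.unpair.1, Nat.pair p.1 p.2) ∧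
      ∀ z < p.2, Un n (p.1.unpair.2, Nat.pair p.1 z)) ?_
    refine Sigma0.and ?_ ?_
    · exact U1.not.toSigma
    · refine Sigma0.succ ?_
      refine Sigma0.ball (P := fun q : (ℕ × ℕ) × ℕ => Un n (q.1.1.unpair.2, Nat.pair q.1.1 q.2))
        ?_ Computable.snd
      exact U2.comp (Computable.pair (Computable.fst.comp Computable.fst) Computable.snd)
  · refine Sigma0.ex (P := fun p : ℕ × ℕ => ¬ Un n (p.1.unpair.2, Nat.pair p.1 p.2) ∧
      ∀ z < p.2 + 1, Un n (p.1.unpair.1, Nat.pair p.1 z)) ?_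
    refine Sigma0.and ?_ ?_
    · exact U2.not.toSigma
    · refine Sigma0.succ ?_
      refine Sigma0.ball (P := fun q : (ℕ × ℕ) × ℕ => Un n (q.1.1.unpair.1, Nat.pair q.1.1 q.2))
        ?_ (Computable.succ.comp Computable.snd)
      exact U1.comp (Computable.pair (Computable.fst.comp Computable.fst) Computable.snd)
  · rintro x ⟨y, hy, hy'⟩ ⟨z, hz, hz'⟩
    rcases lt_or_ge z y with h | h
    · exact hz (hy' z h)
    · exact hy (hz' y (by omega))
  · intro D hD hD' hB hA
    obtain ⟨d, hd⟩ := Un_universal (n + 1) hD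
    obtain ⟨d', hd'⟩ := Un_universal (n + 1) (P := fun x => ¬ D x) hD'
    set x := Nat.pair d d' with hx
    have e1 : x.unpair.1 = d := by rw [hx, Nat.unpair_pair]
    have e2 : x.unpair.2 = d' := by rw [hx, Nat.unpair_pair]
    by_cases h : D x
    · obtain ⟨y, hy⟩ := (hd x).1 h
      have h2 : ∀ z, Un n (d', Nat.pair x z) := by
        intro z
        by_contra hc
        exact (hd' x).2 ⟨z, hc⟩ h
      exact hA x ⟨y, by rw [e1]; exact hy, fun z _ => by rw [e2]; exact h2 z⟩ h
    · obtain ⟨y, hy⟩ := (hd' x).1 h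
      have h2 : ∀ z, Un n (d, Nat.pair x z) := by
        intro z
        by_contra hc
        exact h ((hd x).2 ⟨z, hc⟩)
      exact h (hB x ⟨y, by rw [e2]; exact hy, fun z _ => by rw [e1]; exact h2 z⟩)

/-- a simple set at level `n + 2` -/
theorem exists_simple (n : ℕ) : ∃ C : ℕ → Prop, Sigma0 (n + 2) C ∧ {x | ¬ C x}.Infinite ∧
    ∀ B : ℕ → Prop, Sigma0 (n + 2) B → (∀ x, B x → C x → False) → {x | B x}.Finite := by
  have hU := sigma_Un n
  refine ⟨fun x => ∃ e z, z.unpair.1 = x ∧ 2 * e < x ∧ ¬ Un n (e, z) ∧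
    ∀ w < z, 2 * e < w.unpair.1 → Un n (e, w), ?_, ?_, ?_⟩
  · refine Sigma0.ex (P := fun p : ℕ × ℕ => ∃ z : ℕ, z.unpair.1 = p.1 ∧ 2 * p.2 < p.1 ∧
      ¬ Un n (p.2, z) ∧ ∀ w < z, 2 * p.2 < w.unpair.1 → Un n (p.2, w)) ?_
    refine Sigma0.ex (P := fun q : (ℕ × ℕ) × ℕ => q.2.unpair.1 = q.1.1 ∧ 2 * q.1.2 < q.1.1 ∧
      ¬ Un n (q.1.2, q.2) ∧ ∀ w < q.2, 2 * q.1.2 < w.unpair.1 → Un n (q.1.2, w)) ?_
    have c11 : Computable fun q : (ℕ × ℕ) × ℕ => q.1.1 := Computable.fst.comp Computable.fst
    have c12 : Computable fun q : (ℕ × ℕ) × ℕ => q.1.2 := Computable.snd.comp Computable.fst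
    have hmul : Computable fun k : ℕ => 2 * k := (Primrec.nat_double).to_comp
    refine Sigma0.and (ComputablePred.sigma ?_) (Sigma0.and (ComputablePred.sigma ?_)
      (Sigma0.and ?_ ?_))
    · exact eq_comp (computable_unpair_fst Computable.snd) c11
    · exact nat_lt_comp (hmul.comp c12) c11
    · exact (hU.comp (Computable.pair c12 Computable.snd)).not.toSigma
    · refine Sigma0.succ ?_
      refine Sigma0.ball (P := fun r : ((ℕ × ℕ) × ℕ) × ℕ =>
        2 * r.1.1.2 < r.2.unpair.1 → Un n (r.1.1.2, r.2)) ?_ Computable.snd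
      have c3 : Computable fun r : ((ℕ × ℕ) × ℕ) × ℕ => r.1.1.2 :=
        c12.comp Computable.fst
      refine (Sigma0.or (P := fun r : ((ℕ × ℕ) × ℕ) × ℕ => ¬ (2 * r.1.1.2 < r.2.unpair.1))
        (P' := fun r => Un n (r.1.1.2, r.2)) (ComputablePred.sigma ?_) ?_).of_iff ?_
      · exact (nat_lt_comp (hmul.comp c3) (computable_unpair_fst Computable.snd)).not
      · exact hU.comp (Computable.pair c3 Computable.snd)
      · intro r; exact imp_iff_not_or
  · -- the complement is infinite
    set C : ℕ → Prop := fun x => ∃ e z, z.unpair.1 = x ∧ 2 * e < x ∧ ¬ Un n (e, z) ∧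
      ∀ w < z, 2 * e < w.unpair.1 → Un n (e, w) with hC
    classical
    have bound : ∀ m, ((Finset.range (2 * m + 1)).filter fun x => C x).card ≤ m := by
      intro m
      have hch : ∀ x, ∃ e, C x → ∃ z : ℕ, z.unpair.1 = x ∧ 2 * e < x ∧ ¬ Un n (e, z) ∧
          ∀ w < z, 2 * e < w.unpair.1 → Un n (e, w) := by
        intro x
        by_cases hx : C x
        · obtain ⟨e, he⟩ := hx
          exact ⟨e, fun _ => he⟩
        · exact ⟨0, fun h => absurd h hx⟩
      choose f hf using hch
      calc ((Finset.range (2 * m + 1)).filter fun x => C x).card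
          ≤ (Finset.range m).card := by
            refine Finset.card_le_card_of_injOn f ?_ ?_
            · intro x hx
              simp only [Finset.coe_filter, Finset.mem_range, Set.mem_ofPred_eq] at hx
              obtain ⟨z, hz, h2, _⟩ := hf x hx.2
              simp only [Finset.coe_range, Set.mem_Iio]
              omega
            · intro x hx y hy hxy
              simp only [Finset.coe_filter, Finset.mem_range, Set.mem_ofPred_eq] at hx hy
              obtain ⟨z, hz, h2, h3, h4⟩ := hf x hx.2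
              obtain ⟨z', hz', h2', h3', h4'⟩ := hf y hy.2
              rw [← hxy] at h2' h3' h4'
              have : z = z' := by
                rcases lt_trichotomy z z' with h | h | h
                · exact absurd (h4' z h (by omega)) h3
                · exact h
                · exact absurd (h4 z' h (by omega)) h3'
              rw [← hz, ← hz', this]
        _ = m := Finset.card_range m
    intro hfin
    -- finite complement: contradiction by counting
    obtain ⟨N, hN⟩ := hfin.bddAbove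
    have h1 := bound (N + 1)
    have h2 : ((Finset.range (2 * (N + 1) + 1)).filter fun x => ¬ C x).card ≤ N + 1 := by
      calc _ ≤ (Finset.range (N + 1)).card := by
            refine Finset.card_le_card ?_
            intro x hx
            simp only [Finset.mem_filter, Finset.mem_range] at hx ⊢
            have := hN (show x ∈ {x | ¬ C x} from hx.2)
            omega
        _ = N + 1 := Finset.card_range _
    have h3 := Finset.card_filter_add_card_filter_not (s := Finset.range (2 * (N + 1) + 1)) (p := fun x => C x)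
    rw [Finset.card_range] at h3
    omega
  · intro B hB hdis
    by_contra hinf
    have hinf : {x | B x}.Infinite := hinf
    obtain ⟨e, he⟩ := Un_universal (n + 1) hB
    obtain ⟨x, hx, hxe⟩ := hinf.exists_gt (2 * e)
    obtain ⟨y, hy⟩ := (he x).1 hx
    have hex : ∃ z : ℕ, 2 * e < z.unpair.1 ∧ ¬ Un n (e, z) :=
      ⟨Nat.pair x y, by rw [Nat.unpair_pair]; exact hxe, hy⟩
    classical
    have hsp := Nat.find_spec hex
    have hmin : ∀ w < Nat.find hex, 2 * e < w.unpair.1 → Un n (e, w) := by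
      intro w hw h2
      by_contra hc
      exact Nat.find_min hex hw ⟨h2, hc⟩
    refine hdis (Nat.find hex).unpair.1 ?_ ⟨e, Nat.find hex, rfl, hsp.1, hsp.2, hmin⟩
    refine (he _).2 ⟨(Nat.find hex).unpair.2, ?_⟩
    show ¬ Un n (e, Nat.pair _ _)
    rw [Nat.pair_unpair]
    exact hsp.2

end Pool.Agent.Helper941.IsoProb
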