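import Mathlib
import Pool.Agent.Helper941.Univ

namespace Pool.Agent.Helper941.IsoProb

open Encodable Denumerable

/-! ### The construction -/

def cJ (l : List Bool) (p : ℕ) : ℕ := Nat.count (fun x => l.getD x false = false) p

def cW (w : ℕ → ℕ → ℕ → Bool) (l : List Bool) (q s p : ℕ) : ℕ :=
  Nat.count (fun x => l.getD x false = false ∧ w q x s = true) p

def Sat (w : ℕ → ℕ → ℕ → Bool) (l : List Bool) (i s p : ℕ) : Prop :=
  i.unpair.2 ≤ cW w l i.unpair.1 s p

instance (w : ℕ → ℕ → ℕ → Bool) (l : List Bool) (i s p : ℕ) : Decidable (Sat w l i s p) := by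
  unfold Sat; infer_instance

def Good (w : ℕ → ℕ → ℕ → Bool) (l : List Bool) (k s p : ℕ) : Prop :=
  k + 1 ≤ cJ l p ∧ ∀ i < k + 1, Sat w l i s s → Sat w l i s p

instance (w : ℕ → ℕ → ℕ → Bool) (l : List Bool) (k s p : ℕ) : Decidable (Good w l k s p) := by
  unfold Good; infer_instance

def nxt (w : ℕ → ℕ → ℕ → Bool) (e : Bool) (s : ℕ) (l : List Bool) (p : ℕ) : Bool :=
  l.getD p false || (e && (decide (p < s) && decide (Good w l s.unpair.1 s p)))

def Ls (w : ℕ → ℕ → ℕ → Bool) (evs : ℕ → Bool) : ℕ → List Bool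
  | 0 => []
  | s + 1 => (List.range (s + 1)).map (nxt w (evs s) s (Ls w evs s))

def Vs (w : ℕ → ℕ → ℕ → Bool) (evs : ℕ → Bool) (s p : ℕ) : Bool := (Ls w evs s).getD p false

section Verify

variable (w : ℕ → ℕ → ℕ → Bool) (evs : ℕ → Bool)

theorem Vs_zero (p : ℕ) : Vs w evs 0 p = false := by simp [Vs, Ls]

theorem Vs_lt {s p : ℕ} (h : Vs w evs s p = true) : p < s := by
  cases s with
  | zero => rw [Vs_zero] at h; exact absurd h (by simp)
  | succ s =>
    by_contra hc
    unfold Vs Ls at h
    rw [List.getD_eq_default] at h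
    · exact absurd h (by simp)
    · simp; omega

theorem Vs_succ {s p : ℕ} : Vs w evs (s + 1) p = true ↔
    (Vs w evs s p = true ∨ (evs s = true ∧ p < s ∧ Good w (Ls w evs s) s.unpair.1 s p)) := by
  by_cases hp : p < s + 1
  · have : Vs w evs (s + 1) p = nxt w (evs s) s (Ls w evs s) p := by
      unfold Vs
      rw [Ls]
      rw [List.getD_eq_getElem?_getD, List.getElem?_map, List.getElem?_range hp]
      rfl
    rw [this]
    unfold nxt Vs
    simp
  · constructor
    · intro h
      exact absurd (Vs_lt w evs h) hp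
    · rintro (h | ⟨_, h, _⟩)
      · exact absurd (Vs_lt w evs h) (by omega)
      · omega

theorem Vs_mono {s t p : ℕ} (hst : s ≤ t) (h : Vs w evs s p = true) : Vs w evs t p = true := by
  induction t, hst using Nat.le_induction with
  | base => exact h
  | succ t _ ih => exact (Vs_succ w evs).2 (Or.inl ih)

/-- elements never enumerated -/
def InJ (p : ℕ) : Prop := ∀ s, Vs w evs s p = false

theorem good_mono_k {l : List Bool} {k k' s p : ℕ} (h : k ≤ k') (hg : Good w l k' s p) :
    Good w l k s p := ⟨by have := hg.1; omega, fun i hi => hg.2 i (by omega)⟩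

theorem cJ_mono {l : List Bool} {p p' : ℕ} (h : p ≤ p') : cJ l p ≤ cJ l p' :=
  Nat.count_monotone _ h

theorem cW_mono {l : List Bool} {q s p p' : ℕ} (h : p ≤ p') : cW w l q s p ≤ cW w l q s p' :=
  Nat.count_monotone _ h

theorem sat_mono {l : List Bool} {i s p p' : ℕ} (h : p ≤ p') (hs : Sat w l i s p) :
    Sat w l i s p' := le_trans hs (cW_mono w h)

theorem good_mono_p {l : List Bool} {k s p p' : ℕ} (h : p ≤ p') (hg : Good w l k s p) :
    Good w l k s p' :=
  ⟨le_trans hg.1 (cJ_mono h), fun i hi hs => sat_mono w h (hg.2 i hi hs)⟩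

variable (hw : ∀ q p s t, s ≤ t → w q p s = true → w q p t = true)

/-- if after `s0` only events with index at least `k` happen, then elements below the bound
are preserved -/
theorem preserve {k s : ℕ} (hev : evs s = true → k ≤ s.unpair.1) {p : ℕ}
    (hp : ¬ Good w (Ls w evs s) k s p) : Vs w evs (s + 1) p = Vs w evs s p := by
  rw [Bool.eq_iff_iff, Vs_succ]
  constructor
  · rintro (h | ⟨h1, _, h3⟩)
    · exact h
    · exact absurd (good_mono_k w (hev h1) h3) hp
  · exact Or.inl

theorem cJ_step {k s : ℕ} (hev : evs s = true → k ≤ s.unpair.1) {p : ℕ}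
    (hp : k + 1 ≤ cJ (Ls w evs s) p) : k + 1 ≤ cJ (Ls w evs (s + 1)) p := by
  classical
  have hex : ∃ p, k + 1 ≤ cJ (Ls w evs s) p := ⟨p, hp⟩
  have h1 := Nat.find_spec hex
  have h2 : Nat.find hex ≤ p := Nat.find_min' hex hp
  refine le_trans (le_trans h1 ?_) (cJ_mono h2)
  unfold cJ
  refine Nat.count_mono_left ?_
  intro x hx hx2
  have hng : ¬ Good w (Ls w evs s) k s x := fun hg => Nat.find_min hex hx hg.1
  have := preserve w evs hev hng
  unfold Vs at this
  rw [this]; exact hx2

include hw in
theorem sat_step {k s : ℕ} (hev : evs s = true → k ≤ s.unpair.1) {i : ℕ} (hi : i < k + 1) {p : ℕ}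
    (hps : p ≤ s) (hp : Sat w (Ls w evs s) i s p) : Sat w (Ls w evs (s + 1)) i (s + 1) p := by
  classical
  have hex : ∃ p, Sat w (Ls w evs s) i s p := ⟨p, hp⟩
  have h1 := Nat.find_spec hex
  have h2 : Nat.find hex ≤ p := Nat.find_min' hex hp
  have hss : Sat w (Ls w evs s) i s s := sat_mono w hps hp
  refine sat_mono w h2 (le_trans h1 ?_)
  unfold cW
  refine Nat.count_mono_left ?_
  rintro x hx ⟨hx2, hx3⟩
  have hng : ¬ Good w (Ls w evs s) k s x := fun hg => Nat.find_min hex hx (hg.2 i hi hss)
  have := preserve w evs hev hng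
  unfold Vs at this
  exact ⟨by rw [this]; exact hx2, hw _ _ _ _ (Nat.le_succ s) hx3⟩

theorem cJ_steps {k s0 : ℕ} (hev : ∀ s, s0 ≤ s → evs s = true → k ≤ s.unpair.1) {p s t : ℕ}
    (hs : s0 ≤ s) (hst : s ≤ t) (hp : k + 1 ≤ cJ (Ls w evs s) p) :
    k + 1 ≤ cJ (Ls w evs t) p := by
  induction t, hst using Nat.le_induction with
  | base => exact hp
  | succ t ht ih => exact cJ_step w evs (hev t (by omega)) ih

include hw in
theorem sat_steps {k s0 : ℕ} (hev : ∀ s, s0 ≤ s → evs s = true → k ≤ s.unpair.1) {i : ℕ}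
    (hi : i < k + 1) {p s t : ℕ} (hs : s0 ≤ s) (hst : s ≤ t) (hps : p ≤ s)
    (hp : Sat w (Ls w evs s) i s p) : Sat w (Ls w evs t) i t p := by
  induction t, hst using Nat.le_induction with
  | base => exact hp
  | succ t ht ih => exact sat_step w evs hw (hev t (by omega)) hi (by omega) ih

theorem cJ_large {s k : ℕ} : k + 1 ≤ cJ (Ls w evs s) (s + (k + 1)) := by
  unfold cJ
  rw [Nat.count_add]
  have : Nat.count (fun x => (Ls w evs s).getD (s + x) false = false) (k + 1) = k + 1 := by
    rw [Nat.count_iff_forall]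
    intro x _
    by_contra hc
    have := Vs_lt w evs (s := s) (p := s + x) (by unfold Vs; simpa using hc)
    omega
  omega

include hw in
/-- the restraint imposed on index `k` is bounded, if only finitely many events below `k` -/
theorem good_bounded {k s0 : ℕ} (hev : ∀ s, s0 ≤ s → evs s = true → k ≤ s.unpair.1) :
    ∃ s1 p1, ∀ s, s1 ≤ s → Good w (Ls w evs s) k s p1 := by
  classical
  have key : ∀ i, i < k + 1 → ∃ s1 p1, ∀ s, s1 ≤ s → Sat w (Ls w evs s) i s s →
      Sat w (Ls w evs s) i s p1 := by
    intro i hi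
    by_cases h : ∃ s, s0 ≤ s ∧ Sat w (Ls w evs s) i s s
    · obtain ⟨s, hs, hsat⟩ := h
      exact ⟨s, s, fun t ht _ => sat_steps w evs hw hev hi hs ht le_rfl hsat⟩
    · push Not at h
      exact ⟨s0, 0, fun s hs hsat => absurd hsat (h s hs)⟩
  choose! f g hfg using key
  refine ⟨max s0 ((Finset.range (k + 1)).sup f), max (s0 + (k + 1)) ((Finset.range (k + 1)).sup g),
    fun s hs => ⟨?_, fun i hi hsat => ?_⟩⟩
  · refine le_trans (cJ_steps w evs hev le_rfl (le_trans (le_max_left _ _) hs)
      (cJ_large w evs)) (cJ_mono (le_max_left _ _))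
  · have h1 : f i ≤ (Finset.range (k + 1)).sup f := Finset.le_sup (Finset.mem_range.2 hi)
    have h2 : g i ≤ (Finset.range (k + 1)).sup g := Finset.le_sup (Finset.mem_range.2 hi)
    exact sat_mono w (le_trans h2 (le_max_right _ _))
      (hfg i hi s (le_trans h1 (le_trans (le_max_right _ _) hs)) hsat)

/-- `k` has infinitely many events -/
def InfEv (k : ℕ) : Prop := ∀ S, ∃ s, S ≤ s ∧ s.unpair.1 = k ∧ evs s = true

theorem finEv_bound {k : ℕ} (h : ∀ k' < k, ¬ InfEv evs k') :
    ∃ s0, ∀ s, s0 ≤ s → evs s = true → k ≤ s.unpair.1 := by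
  classical
  unfold InfEv at h
  push Not at h
  choose! f hf using h
  refine ⟨(Finset.range k).sup f, fun s hs he => ?_⟩
  by_contra hc
  push Not at hc
  have h1 : f s.unpair.1 ≤ (Finset.range k).sup f := Finset.le_sup (Finset.mem_range.2 hc)
  exact hf _ hc s (le_trans h1 hs) rfl he

include hw in
/-- Case A -/
theorem caseA (h : ∃ k, InfEv evs k) : ∃ B, ∀ p, InJ w evs p → p < B := by
  classical
  have hk := Nat.find_spec h
  obtain ⟨s0, hs0⟩ := finEv_bound evs (k := Nat.find h) (fun k' hk' => Nat.find_min h hk')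
  obtain ⟨s1, p1, hg⟩ := good_bounded w evs hw hs0
  refine ⟨p1, fun p hp => ?_⟩
  by_contra hc
  push Not at hc
  obtain ⟨s, hs, hsk, hse⟩ := hk (max s1 (p + 1))
  have hG := hg s (le_trans (le_max_left _ _) hs)
  have hps : p < s := lt_of_lt_of_le (Nat.lt_succ_self p) (le_trans (le_max_right _ _) hs)
  have := (Vs_succ w evs (s := s) (p := p)).2
    (Or.inr ⟨hse, hps, by rw [hsk]; exact good_mono_p w hc hG⟩)
  rw [hp (s + 1)] at this
  exact absurd this (by simp)

/-- stabilisation below `p` -/
theorem stable (p : ℕ) : ∃ S, ∀ s, S ≤ s → ∀ x < p, (Vs w evs s x = false ↔ InJ w evs x) := by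
  classical
  have : ∀ x, ∃ S, ∀ s, S ≤ s → (Vs w evs s x = false ↔ InJ w evs x) := by
    intro x
    by_cases h : InJ w evs x
    · exact ⟨0, fun s _ => ⟨fun _ => h, fun _ => h s⟩⟩
    · have h' := h
      unfold InJ at h'
      push Not at h'
      obtain ⟨S, hS⟩ := h'
      refine ⟨S, fun s hs => ⟨fun h2 => ?_, fun h2 => absurd h2 h⟩⟩
      have := Vs_mono w evs hs (by simpa using hS)
      rw [this] at h2
      exact absurd h2 (by simp)
  choose f hf using this
  refine ⟨(Finset.range p).sup f, fun s hs x hx => hf x s (le_trans ?_ hs)⟩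
  exact Finset.le_sup (Finset.mem_range.2 hx)

/-- Case B, first part -/
theorem caseB_inf (h : ∀ k, ¬ InfEv evs k) : ∀ B, ∃ p, B ≤ p ∧ InJ w evs p := by
  classical
  intro B
  obtain ⟨s0, hs0⟩ := finEv_bound evs (k := B) (fun k' _ => h k')
  set p := s0 + (B + 1) with hp
  obtain ⟨S, hS⟩ := stable w evs p
  have h1 := cJ_steps w evs hs0 (s := s0) (t := max s0 S) le_rfl (le_max_left _ _)
    (cJ_large w evs (s := s0) (k := B))
  rw [← hp] at h1
  by_contra hc
  push Not at hc
  have h2 : cJ (Ls w evs (max s0 S)) p ≤ B := by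
    unfold cJ
    rw [Nat.count_eq_card_filter_range]
    calc _ ≤ (Finset.range B).card := by
          refine Finset.card_le_card ?_
          intro x hx
          simp only [Finset.mem_filter, Finset.mem_range] at hx ⊢
          by_contra hxB
          push Not at hxB
          have := (hS (max s0 S) (le_max_right _ _) x hx.1).1 (by unfold Vs; exact hx.2)
          exact hc x hxB this
      _ = B := Finset.card_range B
  omega

include hw in
/-- Case B, second part -/
theorem caseB_W (h : ∀ k, ¬ InfEv evs k) (q : ℕ) :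
    (∀ B, ∃ p, B ≤ p ∧ InJ w evs p ∧ ∃ s, w q p s = true) ↔
      ∀ m S, ∃ s, S ≤ s ∧ Sat w (Ls w evs s) (Nat.pair q m) s s := by
  classical
  constructor
  · intro hinf m S
    -- there are m elements
    have hm : ∀ m, ∃ p, m ≤ Nat.count (fun x => InJ w evs x ∧ ∃ s, w q x s = true) p := by
      intro m
      induction m with
      | zero => exact ⟨0, Nat.zero_le _⟩
      | succ m ih =>
        obtain ⟨p, hp⟩ := ih
        obtain ⟨p', hp', hj, hs⟩ := hinf p
        refine ⟨p' + 1, ?_⟩
        rw [Nat.count_succ, if_pos ⟨hj, hs⟩]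
        have := Nat.count_monotone (fun x => InJ w evs x ∧ ∃ s, w q x s = true) hp'
        omega
    obtain ⟨p, hp⟩ := hm m
    have : ∀ x, ∃ S, ∀ s, S ≤ s → (∃ s, w q x s = true) → w q x s = true := by
      intro x
      by_cases hx : ∃ s, w q x s = true
      · obtain ⟨s, hs⟩ := hx
        exact ⟨s, fun t ht _ => hw _ _ _ _ ht hs⟩
      · exact ⟨0, fun _ _ h => absurd h hx⟩
    choose f hf using this
    set T := max S (max p ((Finset.range p).sup f)) with hT
    refine ⟨T, le_max_left _ _, ?_⟩
    have hpT : p ≤ T := le_trans (le_max_left _ _) (le_max_right _ _)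
    have hfT : (Finset.range p).sup f ≤ T := le_trans (le_max_right _ _) (le_max_right _ _)
    refine sat_mono w hpT ?_
    unfold Sat
    rw [Nat.unpair_pair]
    refine le_trans hp ?_
    unfold cW
    refine Nat.count_mono_left ?_
    rintro x hx ⟨hj, hs⟩
    refine ⟨hj T, hf x T (le_trans ?_ hfT) hs⟩
    exact Finset.le_sup (Finset.mem_range.2 hx)
  · intro hsat B
    obtain ⟨s0, hs0⟩ := finEv_bound evs (k := Nat.pair q (B + 1)) (fun k' _ => h k')
    obtain ⟨s, hs, hsat⟩ := hsat (B + 1) s0
    obtain ⟨S, hS⟩ := stable w evs s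
    have h1 := sat_steps w evs hw hs0 (Nat.lt_succ_self _) hs (le_max_left s S) le_rfl hsat
    unfold Sat at h1
    rw [Nat.unpair_pair] at h1
    by_contra hc
    push Not at hc
    have h2 : cW w (Ls w evs (max s S)) q (max s S) s ≤ B := by
      unfold cW
      rw [Nat.count_eq_card_filter_range]
      calc _ ≤ (Finset.range B).card := by
            refine Finset.card_le_card ?_
            intro x hx
            simp only [Finset.mem_filter, Finset.mem_range] at hx ⊢
            by_contra hxB
            push Not at hxB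
            have := (hS (max s S) (le_max_right _ _) x hx.1).1 (by unfold Vs; exact hx.2.1)
            exact hc x hxB this (max s S) hx.2.2
        _ = B := Finset.card_range B
    simp only at h1
    omega

end Verify

/-! ### Primitive recursiveness -/

variable {α : Type} [Primcodable α]

theorem primrec_count {R : α → ℕ → Prop} [∀ a, DecidablePred (R a)] (hR : PrimrecRel R)
    {g : α → ℕ} (hg : Primrec g) : Primrec fun a => Nat.count (R a) (g a) := by
  have h1 : Primrec fun a => Nat.rec (motive := fun _ => ℕ) 0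
      (fun x c => c + if R a x then 1 else 0) (g a) := by
    refine Primrec.nat_rec' (f := g) (g := fun _ => 0)
      (h := fun a p => p.2 + if R a p.1 then 1 else 0) hg (Primrec.const 0) ?_
    refine Primrec.nat_add.comp (Primrec.snd.comp Primrec.snd) ?_
    refine Primrec.ite ?_ (Primrec.const 1) (Primrec.const 0)
    exact hR.comp Primrec.fst (Primrec.fst.comp Primrec.snd)
  refine h1.of_eq fun a => ?_
  induction g a with
  | zero => simp
  | succ n ih => rw [Nat.count_succ, ← ih]

theorem primrec_ball {R : α → ℕ → Prop} (hR : PrimrecRel R) {g : α → ℕ} (hg : Primrec g) :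
    PrimrecPred fun a => ∀ x < g a, R a x := by
  have := (PrimrecRel.forall_mem_list (R := fun x a => R a x) hR.swap).comp
    (Primrec.list_range.comp hg) (Primrec.id)
  exact this.of_eq (by simp)

theorem primrec_bex {R : α → ℕ → Prop} (hR : PrimrecRel R) {g : α → ℕ} (hg : Primrec g) :
    PrimrecPred fun a => ∃ x < g a, R a x := by
  have := (PrimrecRel.exists_mem_list (R := fun x a => R a x) hR.swap).comp
    (Primrec.list_range.comp hg) (Primrec.id)
  exact this.of_eq (by simp)

theorem primrec_imp {P Q : α → Prop} (hP : PrimrecPred P) (hQ : PrimrecPred Q) :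
    PrimrecPred fun a => P a → Q a :=
  (hP.not.or hQ).of_eq fun _ => imp_iff_not_or.symm

theorem primrec_bool {f : α → Bool} (hf : Primrec f) : PrimrecPred fun a => f a = true :=
  Primrec.eq.comp hf (Primrec.const true)

section

variable {w : ℕ → ℕ → ℕ → Bool} (hw : Primrec fun p : ℕ × ℕ × ℕ => w p.1 p.2.1 p.2.2)

theorem primrec_getD_false {f : α → List Bool} {g : α → ℕ} (hf : Primrec f) (hg : Primrec g) :
    Primrec fun a => (f a).getD (g a) false := (Primrec.list_getD false).comp hf hg

theorem primrec_cJ {f : α → List Bool} {g : α → ℕ} (hf : Primrec f) (hg : Primrec g) :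
    Primrec fun a => cJ (f a) (g a) := by
  unfold cJ
  refine primrec_count (R := fun a x => (f a).getD x false = false) ?_ hg
  exact Primrec.eq.comp (primrec_getD_false (hf.comp Primrec.fst) Primrec.snd) (Primrec.const false)

include hw in
theorem primrec_cW {f : α → List Bool} {q s g : α → ℕ} (hf : Primrec f) (hq : Primrec q)
    (hs : Primrec s) (hg : Primrec g) : Primrec fun a => cW w (f a) (q a) (s a) (g a) := by
  unfold cW
  refine primrec_count (R := fun a x => (f a).getD x false = false ∧ w (q a) x (s a) = true) ?_ hg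
  refine PrimrecPred.and ?_ ?_
  · exact Primrec.eq.comp (primrec_getD_false (hf.comp Primrec.fst) Primrec.snd)
      (Primrec.const false)
  · refine Primrec.eq.comp (hw.comp (Primrec.pair (hq.comp Primrec.fst)
      (Primrec.pair Primrec.snd (hs.comp Primrec.fst)))) (Primrec.const true)

theorem primrec_unpair_fst {f : α → ℕ} (hf : Primrec f) : Primrec fun a => (f a).unpair.1 :=
  Primrec.fst.comp (Primrec.unpair.comp hf)

theorem primrec_unpair_snd {f : α → ℕ} (hf : Primrec f) : Primrec fun a => (f a).unpair.2 :=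
  Primrec.snd.comp (Primrec.unpair.comp hf)

include hw in
theorem primrec_Sat {f : α → List Bool} {i s g : α → ℕ} (hf : Primrec f) (hi : Primrec i)
    (hs : Primrec s) (hg : Primrec g) : PrimrecPred fun a => Sat w (f a) (i a) (s a) (g a) := by
  unfold Sat
  exact Primrec.nat_le.comp (primrec_unpair_snd hi)
    (primrec_cW hw hf (primrec_unpair_fst hi) hs hg)

include hw in
theorem primrec_Good {f : α → List Bool} {k s g : α → ℕ} (hf : Primrec f) (hk : Primrec k)
    (hs : Primrec s) (hg : Primrec g) : PrimrecPred fun a => Good w (f a) (k a) (s a) (g a) := by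
  unfold Good
  refine PrimrecPred.and ?_ ?_
  · exact Primrec.nat_le.comp (Primrec.succ.comp hk) (primrec_cJ hf hg)
  · refine primrec_ball (R := fun a i => Sat w (f a) i (s a) (s a) → Sat w (f a) i (s a) (g a)) ?_
      (Primrec.succ.comp hk)
    refine primrec_imp ?_ ?_
    · exact primrec_Sat hw (hf.comp Primrec.fst) Primrec.snd (hs.comp Primrec.fst)
        (hs.comp Primrec.fst)
    · exact primrec_Sat hw (hf.comp Primrec.fst) Primrec.snd (hs.comp Primrec.fst)
        (hg.comp Primrec.fst)

include hw in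
theorem primrec_nxt {e : α → Bool} {s : α → ℕ} {f : α → List Bool} {g : α → ℕ}
    (he : Primrec e) (hs : Primrec s) (hf : Primrec f) (hg : Primrec g) :
    Primrec fun a => nxt w (e a) (s a) (f a) (g a) := by
  unfold nxt
  refine Primrec.or.comp (primrec_getD_false hf hg) (Primrec.and.comp he (Primrec.and.comp ?_ ?_))
  · exact (Primrec.nat_lt.comp hg hs).decide
  · exact (primrec_Good hw hf (primrec_unpair_fst hs) hs hg).decide

include hw in
theorem primrec_Ls {ev : α → ℕ → Bool} (hev : Primrec₂ ev) {s : α → ℕ} (hs : Primrec s) :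
    Primrec fun a => Ls w (ev a) (s a) := by
  have h1 : Primrec fun a => Nat.rec (motive := fun _ => List Bool) []
      (fun t l => (List.range (t + 1)).map (nxt w (ev a t) t l)) (s a) := by
    refine Primrec.nat_rec' (f := s) (g := fun _ => [])
      (h := fun a p => (List.range (p.1 + 1)).map (nxt w (ev a p.1) p.1 p.2)) hs
      (Primrec.const []) ?_
    refine Primrec.list_map (f := fun p : α × ℕ × List Bool => List.range (p.2.1 + 1))
      (g := fun (p : α × ℕ × List Bool) x => nxt w (ev p.1 p.2.1) p.2.1 p.2.2 x) ?_ ?_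
    · exact Primrec.list_range.comp (Primrec.succ.comp (Primrec.fst.comp Primrec.snd))
    · have a1 : Primrec fun r : (α × ℕ × List Bool) × ℕ => r.1.1 :=
        Primrec.fst.comp Primrec.fst
      have a2 : Primrec fun r : (α × ℕ × List Bool) × ℕ => r.1.2.1 :=
        Primrec.fst.comp (Primrec.snd.comp Primrec.fst)
      have a3 : Primrec fun r : (α × ℕ × List Bool) × ℕ => r.1.2.2 :=
        Primrec.snd.comp (Primrec.snd.comp Primrec.fst)
      exact primrec_nxt hw (hev.comp a1 a2) a2 a3 Primrec.snd
  refine h1.of_eq fun a => ?_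
  induction s a with
  | zero => rfl
  | succ n ih => rw [Ls, ← ih]

end

end Pool.Agent.Helper941.IsoProb
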