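import Mathlib
import Pool.Agent.Helper941.Family

namespace Pool.Agent.Helper941.IsoProb

open Encodable Denumerable

variable {α : Type} [Primcodable α]

theorem primrec_pow : Primrec₂ ((· ^ ·) : ℕ → ℕ → ℕ) := Primrec₂.unpaired'.1 Nat.Primrec.pow

theorem testBit_large {a i : ℕ} (h : a ≤ i) : a.testBit i = false :=
  Nat.testBit_lt_two_pow (lt_of_lt_of_le Nat.lt_two_pow_self (Nat.pow_le_pow_right (by norm_num) h))

theorem primrec_testBit : Primrec₂ (fun a i : ℕ => a.testBit i) := by
  have h1 : PrimrecRel fun a i : ℕ => a / 2 ^ i % 2 = 1 := by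
    refine Primrec.eq.comp (Primrec.nat_mod.comp (Primrec.nat_div.comp Primrec.fst
      (primrec_pow.comp (Primrec.const 2) Primrec.snd)) (Primrec.const 2)) (Primrec.const 1)
  refine h1.decide.of_eq fun a i => ?_
  rw [Nat.testBit_eq_decide_div_mod_eq]

theorem primrec_xor : Primrec₂ (fun a b : ℕ => a ^^^ b) := by
  refine Primrec.of_graph (f := fun p : ℕ × ℕ => p.1 ^^^ p.2) ?_ ?_
  · refine ⟨fun p => 2 ^ (p.1 + p.2 + 1), ?_, ?_⟩
    · exact primrec_pow.comp (Primrec.const 2)
        (Primrec.succ.comp (Primrec.nat_add.comp Primrec.fst Primrec.snd))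
    · rintro ⟨a, b⟩
      have ha : a < 2 ^ (a + b + 1) :=
        lt_of_lt_of_le Nat.lt_two_pow_self (Nat.pow_le_pow_right (by norm_num) (by omega))
      have hb : b < 2 ^ (a + b + 1) :=
        lt_of_lt_of_le Nat.lt_two_pow_self (Nat.pow_le_pow_right (by norm_num) (by omega))
      exact (Nat.xor_lt_two_pow ha hb).le
  · have h : PrimrecPred fun p : (ℕ × ℕ) × ℕ => ∀ i < p.1.1 + p.1.2 + p.2 + 1,
        p.2.testBit i = (p.1.1.testBit i ^^ p.1.2.testBit i) := by
      refine primrec_ball (R := fun (p : (ℕ × ℕ) × ℕ) i =>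
        p.2.testBit i = (p.1.1.testBit i ^^ p.1.2.testBit i)) ?_ ?_
      · refine Primrec.eq.comp ?_ ?_
        · exact primrec_testBit.comp (Primrec.snd.comp Primrec.fst) Primrec.snd
        · refine (Primrec.dom_bool₂ xor).comp ?_ ?_
          · exact primrec_testBit.comp (Primrec.fst.comp (Primrec.fst.comp Primrec.fst)) Primrec.snd
          · exact primrec_testBit.comp (Primrec.snd.comp (Primrec.fst.comp Primrec.fst)) Primrec.snd
      · refine Primrec.succ.comp (Primrec.nat_add.comp (Primrec.nat_add.comp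
          (Primrec.fst.comp Primrec.fst) (Primrec.snd.comp Primrec.fst)) Primrec.snd)
    refine (h.of_eq ?_)
    rintro ⟨⟨a, b⟩, c⟩
    simp only
    constructor
    · intro hh
      refine Nat.eq_of_testBit_eq fun i => ?_
      rw [Nat.testBit_xor]
      by_cases hi : i < a + b + c + 1
      · exact (hh i hi).symm
      · rw [testBit_large (a := a) (by omega), testBit_large (a := b) (by omega),
          testBit_large (a := c) (by omega)]
        rfl
    · rintro rfl i _
      exact Nat.testBit_xor _ _ _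

/-- codes `(F, n, p, b)` -/
def mk (F n p : ℕ) (b : Bool) : ℕ := Nat.pair F (Nat.pair n (Nat.bit b p))
def gF (g : ℕ) : ℕ := g.unpair.1
def gn (g : ℕ) : ℕ := g.unpair.2.unpair.1
def gp (g : ℕ) : ℕ := g.unpair.2.unpair.2.div2
def gb (g : ℕ) : Bool := g.unpair.2.unpair.2.bodd

@[simp] theorem gF_mk (F n p : ℕ) (b : Bool) : gF (mk F n p b) = F := by simp [gF, mk]
@[simp] theorem gn_mk (F n p : ℕ) (b : Bool) : gn (mk F n p b) = n := by simp [gn, mk]
@[simp] theorem gp_mk (F n p : ℕ) (b : Bool) : gp (mk F n p b) = p := by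
  simp [gp, mk]
@[simp] theorem gb_mk (F n p : ℕ) (b : Bool) : gb (mk F n p b) = b := by
  simp [gb, mk]
theorem mk_eta (g : ℕ) : mk (gF g) (gn g) (gp g) (gb g) = g := by
  unfold mk gF gn gp gb
  rw [Nat.bit_bodd_div2, Nat.pair_unpair, Nat.pair_unpair]

theorem primrec_gF {f : α → ℕ} (hf : Primrec f) : Primrec fun a => gF (f a) :=
  primrec_unpair_fst hf
theorem primrec_gn {f : α → ℕ} (hf : Primrec f) : Primrec fun a => gn (f a) :=
  primrec_unpair_fst (primrec_unpair_snd hf)
theorem primrec_gp {f : α → ℕ} (hf : Primrec f) : Primrec fun a => gp (f a) :=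
  Primrec.nat_div2.comp (primrec_unpair_snd (primrec_unpair_snd hf))
theorem primrec_gb {f : α → ℕ} (hf : Primrec f) : Primrec fun a => gb (f a) :=
  Primrec.nat_bodd.comp (primrec_unpair_snd (primrec_unpair_snd hf))

theorem primrec_mk {F n p : α → ℕ} {b : α → Bool} (hF : Primrec F) (hn : Primrec n)
    (hp : Primrec p) (hb : Primrec b) : Primrec fun a => mk (F a) (n a) (p a) (b a) := by
  unfold mk
  refine Primrec₂.natPair.comp hF (Primrec₂.natPair.comp hn ?_)
  have : Primrec fun a => cond (b a) (2 * p a + 1) (2 * p a) :=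
    Primrec.cond hb (Primrec.nat_double_succ.comp hp) (Primrec.nat_double.comp hp)
  refine this.of_eq fun a => ?_
  cases b a <;> simp [Nat.bit]

end Pool.Agent.Helper941.IsoProb
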