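import Mathlib
import Pool.Agent.Helper941.Xor

namespace Pool.Agent.Helper941.IsoProb

open Encodable Denumerable

/-- arity function: all relation symbols binary -/
def ar2 : ℕ → ℕ := fun _ => 2

/-- the translated code -/
def tr (g h : ℕ) : ℕ := mk (gF g ^^^ gF h) (gn h) (gp h) (gb h)

/-- the class of structures -/
structure InK (V : ℕ → ℕ → ℕ → Bool) (A : Str ar2) : Prop where
  c1 : ∀ u v, u ∈ A.dom → v ∈ A.dom → ∃ g, A.rel g [u, v]
  c2 : ∀ u v g g', A.rel g [u, v] → A.rel g' [u, v] → g = g'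
  c3 : ∀ u v w g h, A.rel g [u, v] → A.rel h [u, w] → A.rel (tr g h) [v, w]
  c4 : ∀ u v w g, A.rel g [u, v] → A.rel g [u, w] → v = w
  c5 : ∀ u v w g h, A.rel g [u, v] → A.rel h [u, w] → gn g = gn h
  c6 : ∀ u v g G p, A.rel g [u, v] → ∃ w b, A.rel (mk G (gn g) p b) [u, w]
  c7 : ∀ u v g G p b s, A.rel g [u, v] → V (gn g) s p = true →
    ∃ w, A.rel (mk G (gn g) p b) [u, w]
  c8 : ∀ u v w g h, A.rel g [u, v] → A.rel h [u, w] → gp g = gp h →
    ((gb g ^^ gb h) = (gF g ^^^ gF h).testBit (gp g)) ∨ ∃ s, V (gn g) s (gp g) = true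

section

variable {V : ℕ → ℕ → ℕ → Bool} {A B : Str ar2}

theorem rel_mem {g u v : ℕ} (h : A.rel g [u, v]) : u ∈ A.dom ∧ v ∈ A.dom :=
  ⟨(A.rel_dom _ _ h).2 u (by simp), (A.rel_dom _ _ h).2 v (by simp)⟩

theorem rel_two {g : ℕ} {l : List ℕ} (h : A.rel g l) : ∃ u v, l = [u, v] := by
  have := (A.rel_dom _ _ h).1
  unfold ar2 at this
  match l, this with
  | [u, v], _ => exact ⟨u, v, rfl⟩

/-- isomorphism invariance, basic form -/
theorem iso_rel {f : A.dom ≃ B.dom} (hf : ∀ (i : ℕ) (v : List A.dom),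
    A.rel i (v.map fun x : A.dom => (x : ℕ)) ↔ B.rel i (v.map fun x : A.dom => (f x : ℕ)))
    (g : ℕ) (u v : A.dom) : A.rel g [(u : ℕ), (v : ℕ)] ↔ B.rel g [(f u : ℕ), (f v : ℕ)] :=
  hf g [u, v]

theorem iso_symm (h : A.Iso B) : B.Iso A := by
  obtain ⟨f, hf⟩ := h
  refine ⟨f.symm, fun i v => ?_⟩
  have := hf i (v.map f.symm)
  rw [List.map_map, List.map_map] at this
  have e1 : ((fun x : A.dom => (f x : ℕ)) ∘ f.symm) = fun x : B.dom => (x : ℕ) := by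
    funext x; simp
  rw [e1] at this
  exact this.symm

theorem iso_refl (A : Str ar2) : A.Iso A := ⟨Equiv.refl _, fun _ _ => Iff.rfl⟩

theorem iso_trans {C : Str ar2} (h : A.Iso B) (h' : B.Iso C) : A.Iso C := by
  obtain ⟨f, hf⟩ := h
  obtain ⟨g, hg⟩ := h'
  refine ⟨f.trans g, fun i v => ?_⟩
  rw [hf i v]
  have := hg i (v.map f)
  rw [List.map_map, List.map_map] at this
  exact this

theorem InK.iso (h : A.Iso B) (hA : InK V A) : InK V B := by
  obtain ⟨f, hf⟩ := h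
  have R := iso_rel hf
  -- pull back
  have pull : ∀ {g u v : ℕ}, B.rel g [u, v] → ∃ (a b : A.dom), (f a : ℕ) = u ∧ (f b : ℕ) = v ∧
      A.rel g [(a : ℕ), (b : ℕ)] := by
    intro g u v h
    obtain ⟨hu, hv⟩ := rel_mem h
    refine ⟨f.symm ⟨u, hu⟩, f.symm ⟨v, hv⟩, by simp, by simp, ?_⟩
    rw [R]
    simpa using h
  have push : ∀ {g : ℕ} {a : A.dom} {w : ℕ}, A.rel g [(a : ℕ), w] →
      ∃ w', B.rel g [(f a : ℕ), w'] := by
    intro g a w h
    obtain ⟨_, hw⟩ := rel_mem h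
    exact ⟨_, (R g a ⟨w, hw⟩).1 h⟩
  have inj : ∀ {a b : A.dom}, (f a : ℕ) = f b → a = b := by
    intro a b h
    exact f.injective (Subtype.ext h)
  refine ⟨?_, ?_, ?_, ?_, ?_, ?_, ?_, ?_⟩
  · intro u v hu hv
    obtain ⟨g, hg⟩ := hA.c1 _ _ (f.symm ⟨u, hu⟩).2 (f.symm ⟨v, hv⟩).2
    rw [R] at hg
    exact ⟨g, by simpa using hg⟩
  · intro u v g g' h1 h2
    obtain ⟨a, b, rfl, rfl, h3⟩ := pull h1
    rw [← R] at h2
    exact hA.c2 _ _ _ _ h3 h2
  · intro u v w g h h1 h2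
    obtain ⟨a, b, rfl, rfl, h3⟩ := pull h1
    obtain ⟨a', c, ha, rfl, h4⟩ := pull h2
    rw [inj ha] at h4
    rw [← R]
    exact hA.c3 _ _ _ _ _ h3 h4
  · intro u v w g h1 h2
    obtain ⟨a, b, rfl, rfl, h3⟩ := pull h1
    obtain ⟨a', c, ha, rfl, h4⟩ := pull h2
    rw [inj ha] at h4
    rw [Subtype.ext (hA.c4 _ _ _ _ h3 h4)]
  · intro u v w g h h1 h2
    obtain ⟨a, b, rfl, rfl, h3⟩ := pull h1
    obtain ⟨a', c, ha, rfl, h4⟩ := pull h2
    rw [inj ha] at h4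
    exact hA.c5 _ _ _ _ _ h3 h4
  · intro u v g G p h1
    obtain ⟨a, b, rfl, rfl, h3⟩ := pull h1
    obtain ⟨w, β, hw⟩ := hA.c6 _ _ _ G p h3
    obtain ⟨w', hw'⟩ := push hw
    exact ⟨w', β, hw'⟩
  · intro u v g G p β s h1 hV
    obtain ⟨a, b, rfl, rfl, h3⟩ := pull h1
    obtain ⟨w, hw⟩ := hA.c7 _ _ _ G p β s h3 hV
    exact push hw
  · intro u v w g h h1 h2
    obtain ⟨a, b, rfl, rfl, h3⟩ := pull h1
    obtain ⟨a', c, ha, rfl, h4⟩ := pull h2
    rw [inj ha] at h4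
    exact hA.c8 _ _ _ _ _ h3 h4

/-- image of the base point -/
def Im (A : Str ar2) (u g : ℕ) : Prop := ∃ v, A.rel g [u, v]

theorem iso_of_im (hA : InK V A) (hB : InK V B) {u v : ℕ} (hu : u ∈ A.dom) (hv : v ∈ B.dom)
    (h : ∀ g, Im A u g ↔ Im B v g) : A.Iso B := by
  classical
  have key : ∀ {A B : Str ar2}, InK V A → InK V B → ∀ {u v : ℕ}, u ∈ A.dom → v ∈ B.dom →
      (∀ g, Im A u g ↔ Im B v g) → ∀ x : A.dom, ∃ y : B.dom, ∃ g, A.rel g [u, (x : ℕ)] ∧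
        B.rel g [v, (y : ℕ)] := by
    intro A B hA hB u v hu hv h x
    obtain ⟨g, hg⟩ := hA.c1 u x hu x.2
    obtain ⟨y, hy⟩ := (h g).1 ⟨_, hg⟩
    exact ⟨⟨y, (rel_mem hy).2⟩, g, hg, hy⟩
  choose f gf hf1 hf2 using key hA hB hu hv h
  choose e ge he1 he2 using key hB hA hv hu fun g => (h g).symm
  have left : ∀ x, e (f x) = x := by
    intro x
    have h1 := he1 (f x)
    have h2 := he2 (f x)
    have h3 := hf2 x
    have : ge (f x) = gf x := hB.c2 _ _ _ _ h1 h3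
    rw [this] at h2
    exact Subtype.ext (hA.c4 _ _ _ _ h2 (hf1 x))
  have right : ∀ y, f (e y) = y := by
    intro y
    have h1 := hf1 (e y)
    have h2 := hf2 (e y)
    have h3 := he2 y
    have : gf (e y) = ge y := hA.c2 _ _ _ _ h1 h3
    rw [this] at h2
    exact Subtype.ext (hB.c4 _ _ _ _ h2 (he1 y))
  refine ⟨⟨f, e, left, right⟩, fun i l => ?_⟩
  have R : ∀ (g : ℕ) (x y : A.dom), A.rel g [(x : ℕ), (y : ℕ)] ↔
      B.rel g [(f x : ℕ), (f y : ℕ)] := by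
    intro g x y
    have a1 := hA.c3 _ _ _ _ _ (hf1 x) (hf1 y)
    have b1 := hB.c3 _ _ _ _ _ (hf2 x) (hf2 y)
    constructor
    · intro h
      rw [hA.c2 _ _ _ _ h a1]; exact b1
    · intro h
      rw [hB.c2 _ _ _ _ h b1]; exact a1
  constructor
  · intro h
    obtain ⟨a, b, hab⟩ := rel_two h
    match l, hab with
    | [x, y], hab => exact (R i x y).1 h
  · intro h
    obtain ⟨a, b, hab⟩ := rel_two h
    match l, hab with
    | [x, y], hab => exact (R i x y).2 h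

/-- the label -/
def Lab (A : Str ar2) (n : ℕ) : Prop := ∃ u v g, A.rel g [u, v] ∧ gn g = n

theorem lab_exists (hA : InK V A) : ∃ n, Lab A n := by
  obtain ⟨u, hu⟩ := A.dom_nonempty
  obtain ⟨g, hg⟩ := hA.c1 u u hu hu
  exact ⟨_, u, u, g, hg, rfl⟩

theorem lab_all (hA : InK V A) {n : ℕ} (h : Lab A n) {u v g : ℕ} (hg : A.rel g [u, v]) :
    gn g = n := by
  obtain ⟨u', v', g', hg', rfl⟩ := h
  obtain ⟨h1, hh1⟩ := hA.c1 u' v (rel_mem hg').1 (rel_mem hg).2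
  obtain ⟨h2, hh2⟩ := hA.c1 u' u (rel_mem hg').1 (rel_mem hg).1
  have h3 := hA.c3 _ _ _ _ _ hh2 hh1
  rw [hA.c2 _ _ _ _ hg h3, hA.c5 _ _ _ _ _ hg' hh1]
  simp [tr]

theorem lab_unique (hA : InK V A) {n n' : ℕ} (h : Lab A n) (h' : Lab A n') : n = n' := by
  obtain ⟨u', v', g', hg', rfl⟩ := h'
  exact (lab_all hA h hg').symm

theorem lab_iso (h : A.Iso B) {n : ℕ} (hA : Lab A n) : Lab B n := by
  obtain ⟨f, hf⟩ := h
  obtain ⟨u, v, g, hg, hn⟩ := hA
  obtain ⟨hu, hv⟩ := rel_mem hg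
  exact ⟨_, _, g, (iso_rel hf g ⟨u, hu⟩ ⟨v, hv⟩).1 hg, hn⟩

/-- the shape of an image -/
def Shape (V : ℕ → ℕ → ℕ → Bool) (n : ℕ) (x : ℕ → Bool) (g : ℕ) : Prop :=
  gn g = n ∧ ((∃ s, V n s (gp g) = true) ∨ gb g = (x (gp g) ^^ (gF g).testBit (gp g)))

theorem im_shape (hA : InK V A) {n : ℕ} (hn : Lab A n) {u : ℕ} (hu : u ∈ A.dom) (x : ℕ → Bool)
    (hx : ∀ p, Im A u (mk 0 n p (x p))) (g : ℕ) : Im A u g ↔ Shape V n x g := by
  have fwd : ∀ g, Im A u g → Shape V n x g := by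
    rintro g ⟨v, hv⟩
    have hgn := lab_all hA hn hv
    refine ⟨hgn, ?_⟩
    obtain ⟨w, hw⟩ := hx (gp g)
    rcases hA.c8 _ _ _ _ _ hv hw (by simp) with h | h
    · right
      simp only [gb_mk, gF_mk, Nat.xor_zero] at h
      rw [← h]
      cases gb g <;> cases x (gp g) <;> rfl
    · left
      rw [hgn] at h
      exact h
  refine ⟨fwd g, ?_⟩
  rintro ⟨hgn, h⟩
  obtain ⟨g0, hg0⟩ := hA.c1 u u hu hu
  have hg0n := lab_all hA hn hg0
  rcases h with ⟨s, hs⟩ | h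
  · obtain ⟨w, hw⟩ := hA.c7 u u g0 (gF g) (gp g) (gb g) s hg0 (by rw [hg0n]; exact hs)
    rw [hg0n, ← hgn, mk_eta] at hw
    exact ⟨w, hw⟩
  · by_cases hV : ∃ s, V n s (gp g) = true
    · obtain ⟨s, hs⟩ := hV
      obtain ⟨w, hw⟩ := hA.c7 u u g0 (gF g) (gp g) (gb g) s hg0 (by rw [hg0n]; exact hs)
      rw [hg0n, ← hgn, mk_eta] at hw
      exact ⟨w, hw⟩
    · obtain ⟨w, b, hw⟩ := hA.c6 u u g0 (gF g) (gp g) hg0
      rw [hg0n] at hw
      have h2 := (fwd _ ⟨w, hw⟩).2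
      simp only [gp_mk, gb_mk, gF_mk] at h2
      rcases h2 with h2 | h2
      · exact absurd h2 hV
      · rw [← h] at h2
        rw [h2, ← hgn, mk_eta] at hw
        exact ⟨w, hw⟩

theorem exists_color (hA : InK V A) {n : ℕ} (hn : Lab A n) {u : ℕ} (hu : u ∈ A.dom) :
    ∃ x : ℕ → Bool, ∀ p, Im A u (mk 0 n p (x p)) := by
  obtain ⟨g0, hg0⟩ := hA.c1 u u hu hu
  have hg0n := lab_all hA hn hg0
  have : ∀ p, ∃ b, Im A u (mk 0 n p b) := by
    intro p
    obtain ⟨w, b, hw⟩ := hA.c6 u u g0 0 p hg0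
    rw [hg0n] at hw
    exact ⟨b, w, hw⟩
  choose x hx using this
  exact ⟨x, hx⟩

/-- changing the base point -/
theorem im_shift (hA : InK V A) {n : ℕ} {u v h : ℕ}
    (huv : A.rel h [u, v]) {x : ℕ → Bool} (hx : ∀ g, Im A u g ↔ Shape V n x g) (g : ℕ) :
    Im A v g ↔ Shape V n (fun p => x p ^^ (gF h).testBit p) g := by
  -- g in Im v iff shifted g in Im u
  have h1 : Im A v g ↔ Im A u (mk (gF g ^^^ gF h) (gn g) (gp g) (gb g)) := by
    constructor
    · rintro ⟨w, hw⟩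
      obtain ⟨k, hk⟩ := hA.c1 u w (rel_mem huv).1 (rel_mem hw).2
      have h3 := hA.c3 _ _ _ _ _ huv hk
      have h4 := hA.c2 _ _ _ _ hw h3
      refine ⟨w, ?_⟩
      have : mk (gF g ^^^ gF h) (gn g) (gp g) (gb g) = k := by
        rw [h4]
        simp only [tr, gF_mk, gn_mk, gp_mk, gb_mk]
        have : gF h ^^^ gF k ^^^ gF h = gF k := by
          rw [Nat.xor_comm (gF h) (gF k), Nat.xor_assoc, Nat.xor_self, Nat.xor_zero]
        rw [this, mk_eta]
      rw [this]; exact hk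
    · rintro ⟨w, hw⟩
      have h3 := hA.c3 _ _ _ _ _ huv hw
      refine ⟨w, ?_⟩
      have : tr h (mk (gF g ^^^ gF h) (gn g) (gp g) (gb g)) = g := by
        simp only [tr, gF_mk, gn_mk, gp_mk, gb_mk]
        have : gF h ^^^ (gF g ^^^ gF h) = gF g := by
          rw [Nat.xor_comm (gF g) (gF h), ← Nat.xor_assoc, Nat.xor_self, Nat.zero_xor]
        rw [this, mk_eta]
      rw [this] at h3
      exact h3
  rw [h1, hx]
  unfold Shape
  simp only [gF_mk, gn_mk, gp_mk, gb_mk, Nat.testBit_xor]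
  refine and_congr_right fun _ => or_congr_right ?_
  have : (x (gp g) ^^ ((gF g).testBit (gp g) ^^ (gF h).testBit (gp g))) =
      ((x (gp g) ^^ (gF h).testBit (gp g)) ^^ (gF g).testBit (gp g)) := by
    cases x (gp g) <;> cases (gF g).testBit (gp g) <;> cases (gF h).testBit (gp g) <;> rfl
  rw [this]

/-- never enumerated -/
def InJn (V : ℕ → ℕ → ℕ → Bool) (n p : ℕ) : Prop := ∀ s, V n s p = false

theorem exists_bits (B : ℕ) (f : ℕ → Bool) : ∃ F : ℕ, ∀ i < B, F.testBit i = f i := by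
  refine ⟨Nat.ofBits (n := B) fun i => f i, fun i hi => ?_⟩
  exact Nat.testBit_ofBits_lt _ i hi

/-- isomorphism criterion -/
theorem iso_iff (hA : InK V A) (hB : InK V B) {n : ℕ} (hnA : Lab A n) (hnB : Lab B n)
    {u v : ℕ} (hu : u ∈ A.dom) (hv : v ∈ B.dom) {x y : ℕ → Bool}
    (hx : ∀ p, Im A u (mk 0 n p (x p))) (hy : ∀ p, Im B v (mk 0 n p (y p))) :
    A.Iso B ↔ ∃ N, ∀ p, N ≤ p → InJn V n p → x p = y p := by
  have sx := im_shape hA hnA hu x hx
  have sy := im_shape hB hnB hv y hy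
  constructor
  · rintro ⟨f, hf⟩
    have R := iso_rel hf
    set v' : ℕ := (f ⟨u, hu⟩ : ℕ) with hv'
    have hv'B : v' ∈ B.dom := (f ⟨u, hu⟩).2
    obtain ⟨h, hh⟩ := hB.c1 v v' hv hv'B
    have s2 := im_shift hB hh sy
    have him : ∀ g, Im A u g ↔ Im B v' g := by
      intro g
      constructor
      · rintro ⟨w, hw⟩
        exact ⟨_, (R g ⟨u, hu⟩ ⟨w, (rel_mem hw).2⟩).1 hw⟩
      · rintro ⟨w, hw⟩
        refine ⟨f.symm ⟨w, (rel_mem hw).2⟩, (R g ⟨u, hu⟩ _).2 ?_⟩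
        simpa using hw
    refine ⟨gF h, fun p hp hJ => ?_⟩
    have h1 : Shape V n x (mk 0 n p (x p)) := (sx _).1 (hx p)
    have h2 := (s2 _).1 ((him _).1 ((sx _).2 h1))
    rcases h2.2 with ⟨s, hs⟩ | h3
    · simp only [gp_mk] at hs
      rw [hJ s] at hs
      exact absurd hs (by simp)
    · simp only [gb_mk, gp_mk, gF_mk, Nat.zero_testBit, testBit_large hp] at h3
      simpa using h3
  · rintro ⟨N, hN⟩
    obtain ⟨F, hF⟩ := exists_bits N fun p => (x p ^^ y p)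
    -- cut F to bits below N
    obtain ⟨F', hF'⟩ : ∃ F' : ℕ, ∀ i, F'.testBit i = (decide (i < N) && (x i ^^ y i)) := by
      refine ⟨F % 2 ^ N, fun i => ?_⟩
      rw [Nat.testBit_mod_two_pow]
      by_cases hi : i < N
      · rw [hF i hi]
      · simp [hi]
    obtain ⟨g0, hg0⟩ := hB.c1 v v hv hv
    have hg0n := lab_all hB hnB hg0
    obtain ⟨v', b, hv'⟩ := hB.c6 v v g0 F' 0 hg0
    have s2 := im_shift hB hv' sy
    refine iso_of_im hA hB hu (rel_mem hv').2 fun g => ?_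
    rw [sx, s2]
    unfold Shape
    refine and_congr_right fun _ => ?_
    by_cases hJ : InJn V n (gp g)
    · refine or_congr_right ?_
      have : x (gp g) = (y (gp g) ^^ F'.testBit (gp g)) := by
        rw [hF']
        by_cases hlt : gp g < N
        · simp only [hlt, decide_true, Bool.true_and]
          cases x (gp g) <;> cases y (gp g) <;> rfl
        · simp only [hlt, decide_false, Bool.false_and, Bool.xor_false]
          exact hN _ (by omega) hJ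
      simp only [gF_mk]
      rw [this]
    · unfold InJn at hJ
      push Not at hJ
      obtain ⟨s, hs⟩ := hJ
      have : ∃ s, V n s (gp g) = true := ⟨s, by simpa using hs⟩
      simp [this]

end

end Pool.Agent.Helper941.IsoProb
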