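import Mathlib
import Pool.Agent.Helper941.Struc

namespace Pool.Agent.Helper941.IsoProb

open Encodable Denumerable Nat.Partrec

variable {γ : Type} [Primcodable γ]

/-! ### Values of the computable functions -/

abbrev At : Type := ℕ ⊕ ℕ × List ℕ

def Val (c e : ℕ) (q : At) : Prop := Code.eval (ofNat Code e) (encode q) = Part.some c

theorem val_iff (c e : ℕ) (q : At) :
    Val c e q ↔ ∃ s, Code.evaln s (ofNat Code e) (encode q) = some c := by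
  unfold Val
  rw [Part.eq_some_iff, Code.evaln_complete]
  rfl

theorem sigma_Val (c : ℕ) {e : γ → ℕ} {q : γ → At} (he : Primrec e) (hq : Primrec q) :
    Sigma0 1 fun x => Val c (e x) (q x) := by
  refine sigma1_of_primrec
    (f := fun x s => decide (Code.evaln s (ofNat Code (e x)) (encode (q x)) = some c)) ?_ ?_
  · refine (Primrec.eq.comp ?_ (Primrec.const (some c))).decide
    refine Code.primrec_evaln.comp (Primrec.pair (Primrec.pair Primrec.snd ?_) ?_)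
    · exact (Primrec.ofNat Code).comp (he.comp Primrec.fst)
    · exact Primrec.encode.comp (hq.comp Primrec.fst)
  · intro x
    rw [val_iff]
    simp

theorem primrec_two {g u v : γ → ℕ} (hg : Primrec g) (hu : Primrec u) (hv : Primrec v) :
    Primrec fun x => (Sum.inr (g x, [u x, v x]) : At) :=
  Primrec.sumInr.comp (Primrec.pair hg
    (Primrec.list_cons.comp hu (Primrec.list_cons.comp hv (Primrec.const []))))

theorem sR (c : ℕ) {e g u v : γ → ℕ} (he : Primrec e) (hg : Primrec g) (hu : Primrec u)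
    (hv : Primrec v) : Sigma0 1 fun x => Val c (e x) (Sum.inr (g x, [u x, v x])) :=
  sigma_Val c he (primrec_two hg hu hv)

theorem sD (c : ℕ) {e u : γ → ℕ} (he : Primrec e) (hu : Primrec u) :
    Sigma0 1 fun x => Val c (e x) (Sum.inl (u x)) :=
  sigma_Val c he (Primrec.sumInl.comp hu)

theorem sP {n : ℕ} {P : γ → Prop} (h : PrimrecPred P) : Sigma0 n P :=
  ComputablePred.sigma h.computablePred

theorem pi2 {P : ℕ × γ → Prop} (h : Sigma0 1 P) : Pi0 2 fun e => ∀ z, P (e, z) :=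
  Pi0.all' h.toPi

/-! ### Index sets -/

section

variable {A B : Str ar2}

theorem index_val {e : ℕ} (h : IndexOf e A) (q : At) :
    (Val 1 e q ↔ A.Holds q) ∧ (Val 0 e q ↔ ¬ A.Holds q) := by
  obtain ⟨h1, h2⟩ := h q
  by_cases hq : A.Holds q
  · have := h1 hq
    refine ⟨⟨fun _ => hq, fun _ => this⟩, ⟨fun h0 => ?_, fun hn => absurd hq hn⟩⟩
    unfold Val at h0
    rw [this] at h0
    exact absurd (Part.some_injective h0) (by norm_num)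
  · have := h2 hq
    refine ⟨⟨fun h0 => ?_, fun h => absurd h hq⟩, ⟨fun _ => hq, fun _ => this⟩⟩
    unfold Val at h0
    rw [this] at h0
    exact absurd (Part.some_injective h0) (by norm_num)

theorem index_unique {e : ℕ} (h : IndexOf e A) (h' : IndexOf e B) : A = B := by
  have hq : ∀ q : At, A.Holds q ↔ B.Holds q := fun q =>
    (index_val h q).1.symm.trans (index_val h' q).1
  obtain ⟨d, hd, r, hr⟩ := A
  obtain ⟨d', hd', r', hr'⟩ := B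
  have e1 : d = d' := by
    ext x
    exact hq (Sum.inl x)
  have e2 : r = r' := by
    funext i v
    exact propext (hq (Sum.inr (i, v)))
  subst e1
  subst e2
  rfl

/-- the full list of conditions on an index -/
structure Ax (V : ℕ → ℕ → ℕ → Bool) (e : ℕ) : Prop where
  t0 : ∀ q : At, Val 1 e q ∨ Val 0 e q
  t1 : ∀ z : ℕ × List ℕ, Val 0 e (Sum.inr z) ∨ z.2.length = 2
  t2 : ∀ z : ℕ × ℕ × ℕ, Val 0 e (Sum.inr (z.1, [z.2.1, z.2.2])) ∨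
    (Val 1 e (Sum.inl z.2.1) ∧ Val 1 e (Sum.inl z.2.2))
  t3 : ∃ u, Val 1 e (Sum.inl u)
  k1 : ∀ z : ℕ × ℕ, Val 0 e (Sum.inl z.1) ∨ Val 0 e (Sum.inl z.2) ∨
    ∃ g, Val 1 e (Sum.inr (g, [z.1, z.2]))
  k2 : ∀ z : (ℕ × ℕ) × (ℕ × ℕ), Val 0 e (Sum.inr (z.1.1, [z.2.1, z.2.2])) ∨
    Val 0 e (Sum.inr (z.1.2, [z.2.1, z.2.2])) ∨ z.1.1 = z.1.2
  k3 : ∀ z : (ℕ × ℕ) × (ℕ × ℕ × ℕ), Val 0 e (Sum.inr (z.1.1, [z.2.1, z.2.2.1])) ∨
    Val 0 e (Sum.inr (z.1.2, [z.2.1, z.2.2.2])) ∨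
    Val 1 e (Sum.inr (tr z.1.1 z.1.2, [z.2.2.1, z.2.2.2]))
  k4 : ∀ z : ℕ × (ℕ × ℕ × ℕ), Val 0 e (Sum.inr (z.1, [z.2.1, z.2.2.1])) ∨
    Val 0 e (Sum.inr (z.1, [z.2.1, z.2.2.2])) ∨ z.2.2.1 = z.2.2.2
  k5 : ∀ z : (ℕ × ℕ) × (ℕ × ℕ × ℕ), Val 0 e (Sum.inr (z.1.1, [z.2.1, z.2.2.1])) ∨
    Val 0 e (Sum.inr (z.1.2, [z.2.1, z.2.2.2])) ∨ gn z.1.1 = gn z.1.2
  k6 : ∀ z : (ℕ × ℕ × ℕ) × (ℕ × ℕ), Val 0 e (Sum.inr (z.1.1, [z.2.1, z.2.2])) ∨
    ∃ w : ℕ, (Val 1 e (Sum.inr (mk z.1.2.1 (gn z.1.1) z.1.2.2 false, [z.2.1, w])) ∨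
      Val 1 e (Sum.inr (mk z.1.2.1 (gn z.1.1) z.1.2.2 true, [z.2.1, w])))
  k7 : ∀ z : (ℕ × ℕ × ℕ) × (ℕ × ℕ) × (Bool × ℕ), Val 0 e (Sum.inr (z.1.1, [z.2.1.1, z.2.1.2])) ∨
    V (gn z.1.1) z.2.2.2 z.1.2.2 = false ∨
    ∃ w, Val 1 e (Sum.inr (mk z.1.2.1 (gn z.1.1) z.1.2.2 z.2.2.1, [z.2.1.1, w]))
  k8 : ∀ z : (ℕ × ℕ) × (ℕ × ℕ × ℕ), Val 0 e (Sum.inr (z.1.1, [z.2.1, z.2.2.1])) ∨
    Val 0 e (Sum.inr (z.1.2, [z.2.1, z.2.2.2])) ∨ ¬ gp z.1.1 = gp z.1.2 ∨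
    (gb z.1.1 ^^ gb z.1.2) = (gF z.1.1 ^^^ gF z.1.2).testBit (gp z.1.1) ∨
    ∃ s, V (gn z.1.1) s (gp z.1.1) = true

theorem indexSet_iff (V : ℕ → ℕ → ℕ → Bool) (e : ℕ) :
    IndexSet {A : Str ar2 | InK V A} e ↔ Ax V e := by
  constructor
  · rintro ⟨A, hA, he⟩
    have hA : InK V A := hA
    have hv := index_val he
    have v1 : ∀ q, Val 1 e q ↔ A.Holds q := fun q => (hv q).1
    have v0 : ∀ q, Val 0 e q ↔ ¬ A.Holds q := fun q => (hv q).2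
    have vr : ∀ g l, A.Holds (Sum.inr (g, l)) ↔ A.rel g l := fun _ _ => Iff.rfl
    have vd : ∀ u, A.Holds (Sum.inl u) ↔ u ∈ A.dom := fun _ => Iff.rfl
    refine ⟨?_, ?_, ?_, ?_, ?_, ?_, ?_, ?_, ?_, ?_, ?_, ?_⟩
    · intro q; rw [v1, v0]; exact em _
    · rintro ⟨g, l⟩
      rw [v0, vr]
      by_cases h : A.rel g l
      · exact Or.inr (A.rel_dom _ _ h).1
      · exact Or.inl h
    · rintro ⟨g, u, v⟩
      rw [v0, v1, v1, vr, vd, vd]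
      by_cases h : A.rel g [u, v]
      · exact Or.inr (rel_mem h)
      · exact Or.inl h
    · obtain ⟨u, hu⟩ := A.dom_nonempty
      exact ⟨u, by rw [v1]; exact hu⟩
    · rintro ⟨u, v⟩
      simp only [v0, v1, vr, vd]
      by_cases hu : u ∈ A.dom
      · by_cases hv' : v ∈ A.dom
        · exact Or.inr (Or.inr (hA.c1 u v hu hv'))
        · exact Or.inr (Or.inl hv')
      · exact Or.inl hu
    · rintro ⟨⟨g, g'⟩, ⟨u, v⟩⟩
      simp only [v0, vr]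
      by_cases h : A.rel g [u, v]
      · by_cases h' : A.rel g' [u, v]
        · exact Or.inr (Or.inr (hA.c2 _ _ _ _ h h'))
        · exact Or.inr (Or.inl h')
      · exact Or.inl h
    · rintro ⟨⟨g, h⟩, ⟨u, v, w⟩⟩
      simp only [v0, v1, vr]
      by_cases h1 : A.rel g [u, v]
      · by_cases h2 : A.rel h [u, w]
        · exact Or.inr (Or.inr (hA.c3 _ _ _ _ _ h1 h2))
        · exact Or.inr (Or.inl h2)
      · exact Or.inl h1
    · rintro ⟨g, ⟨u, v, w⟩⟩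
      simp only [v0, vr]
      by_cases h1 : A.rel g [u, v]
      · by_cases h2 : A.rel g [u, w]
        · exact Or.inr (Or.inr (hA.c4 _ _ _ _ h1 h2))
        · exact Or.inr (Or.inl h2)
      · exact Or.inl h1
    · rintro ⟨⟨g, h⟩, ⟨u, v, w⟩⟩
      simp only [v0, vr]
      by_cases h1 : A.rel g [u, v]
      · by_cases h2 : A.rel h [u, w]
        · exact Or.inr (Or.inr (hA.c5 _ _ _ _ _ h1 h2))
        · exact Or.inr (Or.inl h2)
      · exact Or.inl h1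
    · rintro ⟨⟨g, G, p⟩, ⟨u, v⟩⟩
      simp only [v0, v1, vr]
      by_cases h1 : A.rel g [u, v]
      · obtain ⟨w, b, hw⟩ := hA.c6 _ _ _ G p h1
        right
        refine ⟨w, ?_⟩
        cases b
        · exact Or.inl hw
        · exact Or.inr hw
      · exact Or.inl h1
    · rintro ⟨⟨g, G, p⟩, ⟨u, v⟩, ⟨b, s⟩⟩
      simp only [v0, v1, vr]
      by_cases h1 : A.rel g [u, v]
      · by_cases h2 : V (gn g) s p = true
        · exact Or.inr (Or.inr (hA.c7 _ _ _ G p b s h1 h2))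
        · exact Or.inr (Or.inl (by simpa using h2))
      · exact Or.inl h1
    · rintro ⟨⟨g, h⟩, ⟨u, v, w⟩⟩
      simp only [v0, vr]
      by_cases h1 : A.rel g [u, v]
      · by_cases h2 : A.rel h [u, w]
        · by_cases h3 : gp g = gp h
          · exact Or.inr (Or.inr (Or.inr (hA.c8 _ _ _ _ _ h1 h2 h3)))
          · exact Or.inr (Or.inr (Or.inl h3))
        · exact Or.inr (Or.inl h2)
      · exact Or.inl h1
  · intro ax
    have excl : ∀ q, Val 1 e q → Val 0 e q → False := by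
      intro q h1 h0
      unfold Val at h1 h0
      rw [h1] at h0
      exact absurd (Part.some_injective h0) (by norm_num)
    have v0 : ∀ q, Val 0 e q ↔ ¬ Val 1 e q := by
      intro q
      constructor
      · intro h0 h1; exact excl q h1 h0
      · intro h; exact (ax.t0 q).resolve_left h
    let A : Str ar2 :=
      { dom := {u | Val 1 e (Sum.inl u)}
        dom_nonempty := ax.t3
        rel := fun g l => Val 1 e (Sum.inr (g, l))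
        rel_dom := by
          intro g l h
          have h1 : l.length = 2 := (ax.t1 (g, l)).resolve_left fun h0 => excl _ h h0
          refine ⟨h1, ?_⟩
          match l, h1, h with
          | [u, v], _, h =>
            have h2 := (ax.t2 (g, u, v)).resolve_left fun h0 => excl _ h h0
            intro x hx
            simp only [List.mem_cons, List.not_mem_nil, or_false] at hx
            rcases hx with rfl | rfl
            · exact h2.1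
            · exact h2.2 }
    have hA : IndexOf e A := by
      intro q
      constructor
      · intro h
        match q, h with
        | Sum.inl u, h => exact h
        | Sum.inr (g, l), h => exact h
      · intro h
        have h' : ¬ Val 1 e q := by
          intro h1
          match q, h, h1 with
          | Sum.inl u, h, h1 => exact h h1
          | Sum.inr (g, l), h, h1 => exact h h1
        exact (v0 q).2 h'
    refine ⟨A, ?_, hA⟩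
    have hr : ∀ g l, A.rel g l ↔ Val 1 e (Sum.inr (g, l)) := fun _ _ => Iff.rfl
    have hd : ∀ u, u ∈ A.dom ↔ Val 1 e (Sum.inl u) := fun _ => Iff.rfl
    show InK V A
    refine ⟨?_, ?_, ?_, ?_, ?_, ?_, ?_, ?_⟩
    · intro u v hu hv
      rcases ax.k1 (u, v) with h | h | h
      · exact (excl _ hu h).elim
      · exact (excl _ hv h).elim
      · exact h
    · intro u v g g' h1 h2
      rcases ax.k2 ((g, g'), (u, v)) with h | h | h
      · exact (excl _ h1 h).elim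
      · exact (excl _ h2 h).elim
      · exact h
    · intro u v w g h h1 h2
      rcases ax.k3 ((g, h), (u, v, w)) with h3 | h3 | h3
      · exact (excl _ h1 h3).elim
      · exact (excl _ h2 h3).elim
      · exact h3
    · intro u v w g h1 h2
      rcases ax.k4 (g, (u, v, w)) with h3 | h3 | h3
      · exact (excl _ h1 h3).elim
      · exact (excl _ h2 h3).elim
      · exact h3
    · intro u v w g h h1 h2
      rcases ax.k5 ((g, h), (u, v, w)) with h3 | h3 | h3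
      · exact (excl _ h1 h3).elim
      · exact (excl _ h2 h3).elim
      · exact h3
    · intro u v g G p h1
      rcases ax.k6 ((g, G, p), (u, v)) with h3 | ⟨w, h3 | h3⟩
      · exact (excl _ h1 h3).elim
      · exact ⟨w, false, h3⟩
      · exact ⟨w, true, h3⟩
    · intro u v g G p b s h1 hV
      rcases ax.k7 ((g, G, p), (u, v), (b, s)) with h3 | h3 | h3
      · exact (excl _ h1 h3).elim
      · simp only at h3
        rw [hV] at h3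
        exact absurd h3 (by simp)
      · exact h3
    · intro u v w g h h1 h2 h3
      rcases ax.k8 ((g, h), (u, v, w)) with h4 | h4 | h4 | h4
      · exact (excl _ h1 h4).elim
      · exact (excl _ h2 h4).elim
      · exact absurd h3 h4
      · exact h4

theorem primrec_tr {g h : γ → ℕ} (hg : Primrec g) (hh : Primrec h) :
    Primrec fun x => tr (g x) (h x) := by
  unfold tr
  exact primrec_mk (primrec_xor.comp (primrec_gF hg) (primrec_gF hh)) (primrec_gn hh)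
    (primrec_gp hh) (primrec_gb hh)

theorem pi2_indexSet {V : ℕ → ℕ → ℕ → Bool} (hV : Primrec fun x : ℕ × ℕ × ℕ => V x.1 x.2.1 x.2.2) :
    Pi0 2 (IndexSet {A : Str ar2 | InK V A}) := by
  have key : Pi0 2 (Ax V) := by
    have f1 {α β : Type} [Primcodable α] [Primcodable β] : Primrec (Prod.fst : α × β → α) :=
      Primrec.fst
    have f2 {α β : Type} [Primcodable α] [Primcodable β] : Primrec (Prod.snd : α × β → β) :=
      Primrec.snd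
    have V1 : ∀ {δ : Type} [Primcodable δ] {n s p : δ → ℕ} (_ : Primrec n) (_ : Primrec s)
        (_ : Primrec p) (b : Bool), PrimrecPred fun x => V (n x) (s x) (p x) = b := by
      intro δ _ n s p hn hs hp b
      exact Primrec.eq.comp (hV.comp (Primrec.pair hn (Primrec.pair hs hp))) (Primrec.const b)
    have t0 : Pi0 2 fun e : ℕ => ∀ q : At, Val 1 e q ∨ Val 0 e q :=
      pi2 (P := fun x : ℕ × At => Val 1 x.1 x.2 ∨ Val 0 x.1 x.2)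
        (Sigma0.or (sigma_Val 1 f1 f2) (sigma_Val 0 f1 f2))
    have t1 : Pi0 2 fun e : ℕ => ∀ z : ℕ × List ℕ, Val 0 e (Sum.inr z) ∨ z.2.length = 2 := by
      refine pi2 (P := fun x : ℕ × (ℕ × List ℕ) => Val 0 x.1 (Sum.inr x.2) ∨ x.2.2.length = 2)
        (Sigma0.or (sigma_Val 0 f1 (Primrec.sumInr.comp f2)) (sP ?_))
      exact Primrec.eq.comp (Primrec.list_length.comp (f2.comp f2)) (Primrec.const 2)
    have t2 : Pi0 2 fun e : ℕ => ∀ z : ℕ × ℕ × ℕ, Val 0 e (Sum.inr (z.1, [z.2.1, z.2.2])) ∨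
        (Val 1 e (Sum.inl z.2.1) ∧ Val 1 e (Sum.inl z.2.2)) := by
      refine pi2 (P := fun x : ℕ × (ℕ × ℕ × ℕ) => Val 0 x.1 (Sum.inr (x.2.1, [x.2.2.1, x.2.2.2])) ∨
        (Val 1 x.1 (Sum.inl x.2.2.1) ∧ Val 1 x.1 (Sum.inl x.2.2.2))) ?_
      have b := f1.comp (f2.comp (f2 (α := ℕ) (β := ℕ × ℕ × ℕ)))
      have c := f2.comp (f2.comp (f2 (α := ℕ) (β := ℕ × ℕ × ℕ)))
      exact Sigma0.or (sR 0 f1 (f1.comp f2) b c) (Sigma0.and (sD 1 f1 b) (sD 1 f1 c))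
    have t3 : Pi0 2 fun e : ℕ => ∃ u, Val 1 e (Sum.inl u) :=
      (Sigma0.ex (n := 0) (P := fun x : ℕ × ℕ => Val 1 x.1 (Sum.inl x.2)) (sD 1 f1 f2)).toPi
    have k1 : Pi0 2 fun e : ℕ => ∀ z : ℕ × ℕ, Val 0 e (Sum.inl z.1) ∨ Val 0 e (Sum.inl z.2) ∨
        ∃ g, Val 1 e (Sum.inr (g, [z.1, z.2])) := by
      refine pi2 (P := fun x : ℕ × (ℕ × ℕ) => Val 0 x.1 (Sum.inl x.2.1) ∨
        Val 0 x.1 (Sum.inl x.2.2) ∨ ∃ g, Val 1 x.1 (Sum.inr (g, [x.2.1, x.2.2]))) ?_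
      refine Sigma0.or (sD 0 f1 (f1.comp f2)) (Sigma0.or (sD 0 f1 (f2.comp f2)) ?_)
      refine Sigma0.ex (n := 0) (P := fun y : (ℕ × (ℕ × ℕ)) × ℕ =>
        Val 1 y.1.1 (Sum.inr (y.2, [y.1.2.1, y.1.2.2]))) ?_
      exact sR 1 (f1.comp f1) f2 (f1.comp (f2.comp f1)) (f2.comp (f2.comp f1))
    have k2 : Pi0 2 fun e : ℕ => ∀ z : (ℕ × ℕ) × (ℕ × ℕ),
        Val 0 e (Sum.inr (z.1.1, [z.2.1, z.2.2])) ∨
        Val 0 e (Sum.inr (z.1.2, [z.2.1, z.2.2])) ∨ z.1.1 = z.1.2 := by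
      refine pi2 (P := fun x : ℕ × ((ℕ × ℕ) × (ℕ × ℕ)) =>
        Val 0 x.1 (Sum.inr (x.2.1.1, [x.2.2.1, x.2.2.2])) ∨
        Val 0 x.1 (Sum.inr (x.2.1.2, [x.2.2.1, x.2.2.2])) ∨ x.2.1.1 = x.2.1.2) ?_
      have a1 := f1.comp (f1.comp (f2 (α := ℕ) (β := (ℕ × ℕ) × (ℕ × ℕ))))
      have a2 := f2.comp (f1.comp (f2 (α := ℕ) (β := (ℕ × ℕ) × (ℕ × ℕ))))
      have b1 := f1.comp (f2.comp (f2 (α := ℕ) (β := (ℕ × ℕ) × (ℕ × ℕ))))
      have b2 := f2.comp (f2.comp (f2 (α := ℕ) (β := (ℕ × ℕ) × (ℕ × ℕ))))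
      exact Sigma0.or (sR 0 f1 a1 b1 b2) (Sigma0.or (sR 0 f1 a2 b1 b2)
        (sP (Primrec.eq.comp a1 a2)))
    -- shared projections for type ℕ × ((ℕ × ℕ) × (ℕ × ℕ × ℕ))
    have p0 : Primrec fun x : ℕ × ((ℕ × ℕ) × (ℕ × ℕ × ℕ)) => x.1 := f1
    have pg : Primrec fun x : ℕ × ((ℕ × ℕ) × (ℕ × ℕ × ℕ)) => x.2.1.1 := f1.comp (f1.comp f2)
    have ph : Primrec fun x : ℕ × ((ℕ × ℕ) × (ℕ × ℕ × ℕ)) => x.2.1.2 := f2.comp (f1.comp f2)
    have pu : Primrec fun x : ℕ × ((ℕ × ℕ) × (ℕ × ℕ × ℕ)) => x.2.2.1 := f1.comp (f2.comp f2)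
    have pv : Primrec fun x : ℕ × ((ℕ × ℕ) × (ℕ × ℕ × ℕ)) => x.2.2.2.1 :=
      f1.comp (f2.comp (f2.comp f2))
    have pw : Primrec fun x : ℕ × ((ℕ × ℕ) × (ℕ × ℕ × ℕ)) => x.2.2.2.2 :=
      f2.comp (f2.comp (f2.comp f2))
    have k3 : Pi0 2 fun e : ℕ => ∀ z : (ℕ × ℕ) × (ℕ × ℕ × ℕ),
        Val 0 e (Sum.inr (z.1.1, [z.2.1, z.2.2.1])) ∨
        Val 0 e (Sum.inr (z.1.2, [z.2.1, z.2.2.2])) ∨
        Val 1 e (Sum.inr (tr z.1.1 z.1.2, [z.2.2.1, z.2.2.2])) :=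
      pi2 (P := fun x : ℕ × ((ℕ × ℕ) × (ℕ × ℕ × ℕ)) =>
        Val 0 x.1 (Sum.inr (x.2.1.1, [x.2.2.1, x.2.2.2.1])) ∨
        Val 0 x.1 (Sum.inr (x.2.1.2, [x.2.2.1, x.2.2.2.2])) ∨
        Val 1 x.1 (Sum.inr (tr x.2.1.1 x.2.1.2, [x.2.2.2.1, x.2.2.2.2])))
        (Sigma0.or (sR 0 p0 pg pu pv) (Sigma0.or (sR 0 p0 ph pu pw)
          (sR 1 p0 (primrec_tr pg ph) pv pw)))
    have k5 : Pi0 2 fun e : ℕ => ∀ z : (ℕ × ℕ) × (ℕ × ℕ × ℕ),
        Val 0 e (Sum.inr (z.1.1, [z.2.1, z.2.2.1])) ∨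
        Val 0 e (Sum.inr (z.1.2, [z.2.1, z.2.2.2])) ∨ gn z.1.1 = gn z.1.2 :=
      pi2 (P := fun x : ℕ × ((ℕ × ℕ) × (ℕ × ℕ × ℕ)) =>
        Val 0 x.1 (Sum.inr (x.2.1.1, [x.2.2.1, x.2.2.2.1])) ∨
        Val 0 x.1 (Sum.inr (x.2.1.2, [x.2.2.1, x.2.2.2.2])) ∨ gn x.2.1.1 = gn x.2.1.2)
        (Sigma0.or (sR 0 p0 pg pu pv) (Sigma0.or (sR 0 p0 ph pu pw)
          (sP (Primrec.eq.comp (primrec_gn pg) (primrec_gn ph)))))
    have k8 : Pi0 2 fun e : ℕ => ∀ z : (ℕ × ℕ) × (ℕ × ℕ × ℕ),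
        Val 0 e (Sum.inr (z.1.1, [z.2.1, z.2.2.1])) ∨
        Val 0 e (Sum.inr (z.1.2, [z.2.1, z.2.2.2])) ∨ ¬ gp z.1.1 = gp z.1.2 ∨
        (gb z.1.1 ^^ gb z.1.2) = (gF z.1.1 ^^^ gF z.1.2).testBit (gp z.1.1) ∨
        ∃ s, V (gn z.1.1) s (gp z.1.1) = true := by
      refine pi2 (P := fun x : ℕ × ((ℕ × ℕ) × (ℕ × ℕ × ℕ)) =>
        Val 0 x.1 (Sum.inr (x.2.1.1, [x.2.2.1, x.2.2.2.1])) ∨
        Val 0 x.1 (Sum.inr (x.2.1.2, [x.2.2.1, x.2.2.2.2])) ∨ ¬ gp x.2.1.1 = gp x.2.1.2 ∨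
        (gb x.2.1.1 ^^ gb x.2.1.2) = (gF x.2.1.1 ^^^ gF x.2.1.2).testBit (gp x.2.1.1) ∨
        ∃ s, V (gn x.2.1.1) s (gp x.2.1.1) = true) ?_
      refine Sigma0.or (sR 0 p0 pg pu pv) (Sigma0.or (sR 0 p0 ph pu pw) (Sigma0.or (sP ?_)
        (Sigma0.or (sP ?_) ?_)))
      · exact (Primrec.eq.comp (primrec_gp pg) (primrec_gp ph)).not
      · exact Primrec.eq.comp ((Primrec.dom_bool₂ xor).comp (primrec_gb pg) (primrec_gb ph))
          (primrec_testBit.comp (primrec_xor.comp (primrec_gF pg) (primrec_gF ph)) (primrec_gp pg))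
      · refine Sigma0.ex (n := 0) (P := fun y : (ℕ × ((ℕ × ℕ) × (ℕ × ℕ × ℕ))) × ℕ =>
          V (gn y.1.2.1.1) y.2 (gp y.1.2.1.1) = true) (sP ?_)
        exact V1 (primrec_gn (pg.comp f1)) f2 (primrec_gp (pg.comp f1)) true
    have k4 : Pi0 2 fun e : ℕ => ∀ z : ℕ × (ℕ × ℕ × ℕ),
        Val 0 e (Sum.inr (z.1, [z.2.1, z.2.2.1])) ∨
        Val 0 e (Sum.inr (z.1, [z.2.1, z.2.2.2])) ∨ z.2.2.1 = z.2.2.2 := by
      refine pi2 (P := fun x : ℕ × (ℕ × (ℕ × ℕ × ℕ)) =>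
        Val 0 x.1 (Sum.inr (x.2.1, [x.2.2.1, x.2.2.2.1])) ∨
        Val 0 x.1 (Sum.inr (x.2.1, [x.2.2.1, x.2.2.2.2])) ∨ x.2.2.2.1 = x.2.2.2.2) ?_
      have q0 : Primrec fun x : ℕ × (ℕ × (ℕ × ℕ × ℕ)) => x.1 := f1
      have qg : Primrec fun x : ℕ × (ℕ × (ℕ × ℕ × ℕ)) => x.2.1 := f1.comp f2
      have qu : Primrec fun x : ℕ × (ℕ × (ℕ × ℕ × ℕ)) => x.2.2.1 := f1.comp (f2.comp f2)
      have qv : Primrec fun x : ℕ × (ℕ × (ℕ × ℕ × ℕ)) => x.2.2.2.1 :=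
        f1.comp (f2.comp (f2.comp f2))
      have qw : Primrec fun x : ℕ × (ℕ × (ℕ × ℕ × ℕ)) => x.2.2.2.2 :=
        f2.comp (f2.comp (f2.comp f2))
      exact Sigma0.or (sR 0 q0 qg qu qv) (Sigma0.or (sR 0 q0 qg qu qw) (sP (Primrec.eq.comp qv qw)))
    have k6 : Pi0 2 fun e : ℕ => ∀ z : (ℕ × ℕ × ℕ) × (ℕ × ℕ),
        Val 0 e (Sum.inr (z.1.1, [z.2.1, z.2.2])) ∨
        ∃ w : ℕ, (Val 1 e (Sum.inr (mk z.1.2.1 (gn z.1.1) z.1.2.2 false, [z.2.1, w])) ∨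
          Val 1 e (Sum.inr (mk z.1.2.1 (gn z.1.1) z.1.2.2 true, [z.2.1, w]))) := by
      refine pi2 (P := fun x : ℕ × ((ℕ × ℕ × ℕ) × (ℕ × ℕ)) =>
        Val 0 x.1 (Sum.inr (x.2.1.1, [x.2.2.1, x.2.2.2])) ∨
        ∃ w : ℕ, (Val 1 x.1 (Sum.inr (mk x.2.1.2.1 (gn x.2.1.1) x.2.1.2.2 false, [x.2.2.1, w])) ∨
          Val 1 x.1 (Sum.inr (mk x.2.1.2.1 (gn x.2.1.1) x.2.1.2.2 true, [x.2.2.1, w])))) ?_
      have q0 : Primrec fun x : ℕ × ((ℕ × ℕ × ℕ) × (ℕ × ℕ)) => x.1 := f1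
      have qg : Primrec fun x : ℕ × ((ℕ × ℕ × ℕ) × (ℕ × ℕ)) => x.2.1.1 := f1.comp (f1.comp f2)
      have qG : Primrec fun x : ℕ × ((ℕ × ℕ × ℕ) × (ℕ × ℕ)) => x.2.1.2.1 :=
        f1.comp (f2.comp (f1.comp f2))
      have qp : Primrec fun x : ℕ × ((ℕ × ℕ × ℕ) × (ℕ × ℕ)) => x.2.1.2.2 :=
        f2.comp (f2.comp (f1.comp f2))
      have qu : Primrec fun x : ℕ × ((ℕ × ℕ × ℕ) × (ℕ × ℕ)) => x.2.2.1 := f1.comp (f2.comp f2)
      have qv : Primrec fun x : ℕ × ((ℕ × ℕ × ℕ) × (ℕ × ℕ)) => x.2.2.2 := f2.comp (f2.comp f2)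
      refine Sigma0.or (sR 0 q0 qg qu qv) ?_
      refine Sigma0.ex (n := 0) (P := fun y : (ℕ × ((ℕ × ℕ × ℕ) × (ℕ × ℕ))) × ℕ =>
        (Val 1 y.1.1 (Sum.inr (mk y.1.2.1.2.1 (gn y.1.2.1.1) y.1.2.1.2.2 false, [y.1.2.2.1, y.2])) ∨
          Val 1 y.1.1 (Sum.inr (mk y.1.2.1.2.1 (gn y.1.2.1.1) y.1.2.1.2.2 true,
            [y.1.2.2.1, y.2])))) ?_
      exact Sigma0.or
        (sR 1 (q0.comp f1) (primrec_mk (qG.comp f1) (primrec_gn (qg.comp f1)) (qp.comp f1)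
          (Primrec.const false)) (qu.comp f1) f2)
        (sR 1 (q0.comp f1) (primrec_mk (qG.comp f1) (primrec_gn (qg.comp f1)) (qp.comp f1)
          (Primrec.const true)) (qu.comp f1) f2)
    have k7 : Pi0 2 fun e : ℕ => ∀ z : (ℕ × ℕ × ℕ) × (ℕ × ℕ) × (Bool × ℕ),
        Val 0 e (Sum.inr (z.1.1, [z.2.1.1, z.2.1.2])) ∨
        V (gn z.1.1) z.2.2.2 z.1.2.2 = false ∨
        ∃ w, Val 1 e (Sum.inr (mk z.1.2.1 (gn z.1.1) z.1.2.2 z.2.2.1, [z.2.1.1, w])) := by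
      refine pi2 (P := fun x : ℕ × ((ℕ × ℕ × ℕ) × (ℕ × ℕ) × (Bool × ℕ)) =>
        Val 0 x.1 (Sum.inr (x.2.1.1, [x.2.2.1.1, x.2.2.1.2])) ∨
        V (gn x.2.1.1) x.2.2.2.2 x.2.1.2.2 = false ∨
        ∃ w, Val 1 x.1 (Sum.inr (mk x.2.1.2.1 (gn x.2.1.1) x.2.1.2.2 x.2.2.2.1,
          [x.2.2.1.1, w]))) ?_
      have q0 : Primrec fun x : ℕ × ((ℕ × ℕ × ℕ) × (ℕ × ℕ) × (Bool × ℕ)) => x.1 := f1
      have qg : Primrec fun x : ℕ × ((ℕ × ℕ × ℕ) × (ℕ × ℕ) × (Bool × ℕ)) => x.2.1.1 :=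
        f1.comp (f1.comp f2)
      have qG : Primrec fun x : ℕ × ((ℕ × ℕ × ℕ) × (ℕ × ℕ) × (Bool × ℕ)) => x.2.1.2.1 :=
        f1.comp (f2.comp (f1.comp f2))
      have qp : Primrec fun x : ℕ × ((ℕ × ℕ × ℕ) × (ℕ × ℕ) × (Bool × ℕ)) => x.2.1.2.2 :=
        f2.comp (f2.comp (f1.comp f2))
      have qu : Primrec fun x : ℕ × ((ℕ × ℕ × ℕ) × (ℕ × ℕ) × (Bool × ℕ)) => x.2.2.1.1 :=
        f1.comp (f1.comp (f2.comp f2))
      have qv : Primrec fun x : ℕ × ((ℕ × ℕ × ℕ) × (ℕ × ℕ) × (Bool × ℕ)) => x.2.2.1.2 :=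
        f2.comp (f1.comp (f2.comp f2))
      have qb : Primrec fun x : ℕ × ((ℕ × ℕ × ℕ) × (ℕ × ℕ) × (Bool × ℕ)) => x.2.2.2.1 :=
        f1.comp (f2.comp (f2.comp f2))
      have qs : Primrec fun x : ℕ × ((ℕ × ℕ × ℕ) × (ℕ × ℕ) × (Bool × ℕ)) => x.2.2.2.2 :=
        f2.comp (f2.comp (f2.comp f2))
      refine Sigma0.or (sR 0 q0 qg qu qv) (Sigma0.or (sP (V1 (primrec_gn qg) qs qp false)) ?_)
      refine Sigma0.ex (n := 0) (P := fun y : (ℕ × ((ℕ × ℕ × ℕ) × (ℕ × ℕ) × (Bool × ℕ))) × ℕ =>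
        Val 1 y.1.1 (Sum.inr (mk y.1.2.1.2.1 (gn y.1.2.1.1) y.1.2.1.2.2 y.1.2.2.2.1,
          [y.1.2.2.1.1, y.2]))) ?_
      exact sR 1 (q0.comp f1) (primrec_mk (qG.comp f1) (primrec_gn (qg.comp f1)) (qp.comp f1)
          (qb.comp f1)) (qu.comp f1) f2
    have := t0.and (t1.and (t2.and (t3.and (k1.and (k2.and (k3.and (k4.and (k5.and
      (k6.and (k7.and k8))))))))))
    refine this.of_iff fun e => ?_
    constructor
    · rintro ⟨a0, a1, a2, a3, b1, b2, b3, b4, b5, b6, b7, b8⟩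
      exact ⟨a0, a1, a2, a3, b1, b2, b3, b4, b5, b6, b7, b8⟩
    · rintro ⟨a0, a1, a2, a3, b1, b2, b3, b4, b5, b6, b7, b8⟩
      exact ⟨a0, a1, a2, a3, b1, b2, b3, b4, b5, b6, b7, b8⟩
  exact key.of_iff fun e => indexSet_iff V e

end

end Pool.Agent.Helper941.IsoProb
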