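import Mathlib
import Pool.Agent.Helper941.Comp

namespace Pool.Agent.Helper941.IsoProb

open Encodable Denumerable Nat.Partrec

variable {γ : Type} [Primcodable γ]

/-- membership in the universe of the model with label `n` and colour `ε` -/
def MDom (V : ℕ → ℕ → ℕ → Bool) (n : ℕ) (ε : Bool) (u : ℕ) : Prop :=
  gn u.unpair.1 = n ∧
  ((u.unpair.2 = 0 ∧ gb u.unpair.1 = (ε ^^ (gF u.unpair.1).testBit (gp u.unpair.1))) ∨
   (¬ gb u.unpair.1 = (ε ^^ (gF u.unpair.1).testBit (gp u.unpair.1)) ∧
    V n u.unpair.2 (gp u.unpair.1) = true ∧ V n (u.unpair.2 - 1) (gp u.unpair.1) = false))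

def MRel (V : ℕ → ℕ → ℕ → Bool) (n : ℕ) (ε : Bool) (g : ℕ) (l : List ℕ) : Prop :=
  l.length = 2 ∧ MDom V n ε (l.getD 0 0) ∧ MDom V n ε (l.getD 1 0) ∧
    g = tr (l.getD 0 0).unpair.1 (l.getD 1 0).unpair.1

variable {V : ℕ → ℕ → ℕ → Bool}

theorem mdom_intro0 {n : ℕ} {ε : Bool} (F p : ℕ) :
    MDom V n ε (Nat.pair (mk F n p (ε ^^ F.testBit p)) 0) := by
  unfold MDom
  simp

def Mod (V : ℕ → ℕ → ℕ → Bool) (n : ℕ) (ε : Bool) : Str ar2 where
  dom := {u | MDom V n ε u}
  dom_nonempty := ⟨_, mdom_intro0 0 0⟩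
  rel := MRel V n ε
  rel_dom := by
    intro i v h
    refine ⟨h.1, ?_⟩
    match v, h with
    | [u, w], h =>
      intro x hx
      simp only [List.mem_cons, List.not_mem_nil, or_false] at hx
      rcases hx with rfl | rfl
      · exact h.2.1
      · exact h.2.2.1

theorem mod_rel {n : ℕ} {ε : Bool} {g u v : ℕ} :
    (Mod V n ε).rel g [u, v] ↔ MDom V n ε u ∧ MDom V n ε v ∧ g = tr u.unpair.1 v.unpair.1 := by
  show MRel V n ε g [u, v] ↔ _
  unfold MRel
  simp

theorem mod_inK (h0 : ∀ n p, V n 0 p = false)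
    (hm : ∀ n s t p, s ≤ t → V n s p = true → V n t p = true) (n : ℕ) (ε : Bool) :
    InK V (Mod V n ε) := by
  refine ⟨?_, ?_, ?_, ?_, ?_, ?_, ?_, ?_⟩
  · intro u v hu hv
    exact ⟨_, mod_rel.2 ⟨hu, hv, rfl⟩⟩
  · intro u v g g' h h'
    rw [mod_rel] at h h'
    rw [h.2.2, h'.2.2]
  · intro u v w g h h1 h2
    rw [mod_rel] at h1 h2 ⊢
    refine ⟨h1.2.1, h2.2.1, ?_⟩
    rw [h1.2.2, h2.2.2]
    simp only [tr, gF_mk, gn_mk, gp_mk, gb_mk]
    congr 1
    refine Nat.eq_of_testBit_eq fun i => ?_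
    simp only [Nat.testBit_xor]
    cases (gF u.unpair.1).testBit i <;> cases (gF v.unpair.1).testBit i <;>
      cases (gF w.unpair.1).testBit i <;> rfl
  · intro u v w g h1 h2
    rw [mod_rel] at h1 h2
    obtain ⟨hu, hv, hg⟩ := h1
    obtain ⟨_, hw, hg'⟩ := h2
    rw [hg] at hg'
    have e1 : gF v.unpair.1 = gF w.unpair.1 := by
      have := congrArg gF hg'
      simp only [tr, gF_mk] at this
      refine Nat.eq_of_testBit_eq fun i => ?_
      have := congrArg (fun x => Nat.testBit x i) this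
      simp only [Nat.testBit_xor] at this
      revert this
      cases (gF u.unpair.1).testBit i <;> cases (gF v.unpair.1).testBit i <;>
        cases (gF w.unpair.1).testBit i <;> simp
    have e2 : gp v.unpair.1 = gp w.unpair.1 := by
      have := congrArg gp hg'
      simpa only [tr, gp_mk] using this
    have e3 : gb v.unpair.1 = gb w.unpair.1 := by
      have := congrArg gb hg'
      simpa only [tr, gb_mk] using this
    have e4 : v.unpair.1 = w.unpair.1 := by
      rw [← mk_eta v.unpair.1, ← mk_eta w.unpair.1, e1, e2, e3, hv.1, hw.1]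
    have e5 : v.unpair.2 = w.unpair.2 := by
      have hv2 := hv.2
      have hw2 := hw.2
      rw [← e4] at hw2
      rcases hv2 with ⟨a, b⟩ | ⟨a, b, c⟩
      · rcases hw2 with ⟨a', b'⟩ | ⟨a', b', c'⟩
        · rw [a, a']
        · exact absurd b a'
      · rcases hw2 with ⟨a', b'⟩ | ⟨a', b', c'⟩
        · exact absurd b' a
        · by_contra hne
          rcases lt_or_gt_of_ne hne with h | h
          · have := hm _ _ (w.unpair.2 - 1) _ (by omega) b
            rw [this] at c'
            exact absurd c' (by simp)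
          · have := hm _ _ (v.unpair.2 - 1) _ (by omega) b'
            rw [this] at c
            exact absurd c (by simp)
    rw [← Nat.pair_unpair v, ← Nat.pair_unpair w, e4, e5]
  · intro u v w g h h1 h2
    rw [mod_rel] at h1 h2
    rw [h1.2.2, h2.2.2]
    simp only [tr, gn_mk]
    rw [h1.2.1.1, h2.2.1.1]
  · intro u v g G p h1
    rw [mod_rel] at h1
    have hn : gn g = n := by rw [h1.2.2]; simp only [tr, gn_mk]; exact h1.2.1.1
    refine ⟨Nat.pair (mk (gF u.unpair.1 ^^^ G) n p (ε ^^ (gF u.unpair.1 ^^^ G).testBit p)) 0,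
      (ε ^^ (gF u.unpair.1 ^^^ G).testBit p), ?_⟩
    rw [mod_rel]
    refine ⟨h1.1, mdom_intro0 _ _, ?_⟩
    simp only [tr, Nat.unpair_pair, gF_mk, gn_mk, gp_mk, gb_mk, hn]
    congr 1
    rw [← Nat.xor_assoc, Nat.xor_self, Nat.zero_xor]
  · intro u v g G p b s h1 hs
    rw [mod_rel] at h1
    have hn : gn g = n := by rw [h1.2.2]; simp only [tr, gn_mk]; exact h1.2.1.1
    rw [hn] at hs ⊢
    have e1 : gF u.unpair.1 ^^^ (gF u.unpair.1 ^^^ G) = G := by
      rw [← Nat.xor_assoc, Nat.xor_self, Nat.zero_xor]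
    by_cases hb : b = (ε ^^ (gF u.unpair.1 ^^^ G).testBit p)
    · refine ⟨Nat.pair (mk (gF u.unpair.1 ^^^ G) n p b) 0, ?_⟩
      rw [mod_rel]
      refine ⟨h1.1, ?_, ?_⟩
      · rw [hb]; exact mdom_intro0 _ _
      · simp only [tr, Nat.unpair_pair, gF_mk, gn_mk, gp_mk, gb_mk]
        rw [e1]
    · classical
      have hex : ∃ s, V n s p = true := ⟨s, hs⟩
      have hs1 := Nat.find_spec hex
      have hpos : 0 < Nat.find hex := by
        rcases Nat.eq_zero_or_pos (Nat.find hex) with h | h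
        · rw [h, h0] at hs1
          exact absurd hs1 (by simp)
        · exact h
      have hs2 : V n (Nat.find hex - 1) p = false := by
        have := Nat.find_min hex (m := Nat.find hex - 1) (by omega)
        simpa using this
      refine ⟨Nat.pair (mk (gF u.unpair.1 ^^^ G) n p b) (Nat.find hex), ?_⟩
      rw [mod_rel]
      refine ⟨h1.1, ?_, ?_⟩
      · refine ⟨by simp, Or.inr ⟨?_, ?_, ?_⟩⟩
        · simp only [Nat.unpair_pair, gb_mk, gF_mk, gp_mk]; exact hb
        · simp only [Nat.unpair_pair, gp_mk]; exact hs1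
        · simp only [Nat.unpair_pair, gp_mk]; exact hs2
      · simp only [tr, Nat.unpair_pair, gF_mk, gn_mk, gp_mk, gb_mk]
        rw [e1]
  · intro u v w g h h1 h2 h3
    rw [mod_rel] at h1 h2
    obtain ⟨hu, hv, hg⟩ := h1
    obtain ⟨_, hw, hh⟩ := h2
    have gpv : gp g = gp v.unpair.1 := by rw [hg]; simp [tr]
    have gph : gp h = gp w.unpair.1 := by rw [hh]; simp [tr]
    have gnv : gn g = n := by rw [hg]; simp only [tr, gn_mk]; exact hv.1
    have gbv : gb g = gb v.unpair.1 := by rw [hg]; simp [tr]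
    have gbw : gb h = gb w.unpair.1 := by rw [hh]; simp [tr]
    rcases hv.2 with ⟨a, b⟩ | ⟨a, b, c⟩
    · rcases hw.2 with ⟨a', b'⟩ | ⟨a', b', c'⟩
      · left
        rw [gbv, gbw, b, b', hg, hh]
        simp only [tr, gF_mk, gp_mk, Nat.testBit_xor]
        rw [← gph, ← h3, gpv]
        cases ε <;> cases (gF u.unpair.1).testBit (gp v.unpair.1) <;>
          cases (gF v.unpair.1).testBit (gp v.unpair.1) <;>
          cases (gF w.unpair.1).testBit (gp v.unpair.1) <;> rfl
      · right
        exact ⟨_, by rw [gnv, h3, gph]; exact b'⟩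
    · right
      exact ⟨_, by rw [gnv, gpv]; exact b⟩

theorem mod_lab (n : ℕ) (ε : Bool) : Lab (Mod V n ε) n := by
  refine ⟨_, _, _, mod_rel.2 ⟨mdom_intro0 0 0, mdom_intro0 0 0, rfl⟩, ?_⟩
  simp [tr]

/-- the base element -/
def base (n : ℕ) (ε : Bool) : ℕ := Nat.pair (mk 0 n 0 ε) 0

theorem base_mem (n : ℕ) (ε : Bool) : base n ε ∈ (Mod V n ε).dom := by
  have := mdom_intro0 (V := V) (n := n) (ε := ε) 0 0
  show MDom V n ε (base n ε)
  simpa [base] using this

theorem mod_color (n : ℕ) (ε : Bool) (p : ℕ) :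
    Im (Mod V n ε) (base n ε) (mk 0 n p ((fun _ => ε) p)) := by
  refine ⟨Nat.pair (mk 0 n p ε) 0, mod_rel.2 ⟨base_mem n ε, ?_, ?_⟩⟩
  · have := mdom_intro0 (V := V) (n := n) (ε := ε) 0 p
    simpa using this
  · simp [tr, base]

/-! ### computability of the atomic diagrams -/

theorem primrec_MDom (hV : Primrec fun x : ℕ × ℕ × ℕ => V x.1 x.2.1 x.2.2) {n u : γ → ℕ}
    {ε : γ → Bool} (hn : Primrec n) (hε : Primrec ε) (hu : Primrec u) :
    PrimrecPred fun x => MDom V (n x) (ε x) (u x) := by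
  unfold MDom
  have h1 := primrec_unpair_fst hu
  have h2 := primrec_unpair_snd hu
  have hc : Primrec fun x => ((ε x) ^^ (gF (u x).unpair.1).testBit (gp (u x).unpair.1)) :=
    (Primrec.dom_bool₂ xor).comp hε (primrec_testBit.comp (primrec_gF h1) (primrec_gp h1))
  have hE : PrimrecPred fun x => gb (u x).unpair.1 =
      ((ε x) ^^ (gF (u x).unpair.1).testBit (gp (u x).unpair.1)) :=
    Primrec.eq.comp (primrec_gb h1) hc
  refine PrimrecPred.and (Primrec.eq.comp (primrec_gn h1) hn) (PrimrecPred.or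
    (PrimrecPred.and (Primrec.eq.comp h2 (Primrec.const 0)) hE)
    (PrimrecPred.and hE.not (PrimrecPred.and ?_ ?_)))
  · exact Primrec.eq.comp (hV.comp (Primrec.pair hn (Primrec.pair h2 (primrec_gp h1))))
      (Primrec.const true)
  · exact Primrec.eq.comp (hV.comp (Primrec.pair hn (Primrec.pair (Primrec.pred.comp h2)
      (primrec_gp h1)))) (Primrec.const false)

theorem primrec_MRel (hV : Primrec fun x : ℕ × ℕ × ℕ => V x.1 x.2.1 x.2.2) {n g : γ → ℕ}
    {ε : γ → Bool} {l : γ → List ℕ} (hn : Primrec n) (hε : Primrec ε) (hg : Primrec g)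
    (hl : Primrec l) : PrimrecPred fun x => MRel V (n x) (ε x) (g x) (l x) := by
  unfold MRel
  have h0 : Primrec fun x => (l x).getD 0 0 := (Primrec.list_getD 0).comp hl (Primrec.const 0)
  have h1 : Primrec fun x => (l x).getD 1 0 := (Primrec.list_getD 0).comp hl (Primrec.const 1)
  refine PrimrecPred.and (Primrec.eq.comp (Primrec.list_length.comp hl) (Primrec.const 2))
    (PrimrecPred.and (primrec_MDom hV hn hε h0) (PrimrecPred.and (primrec_MDom hV hn hε h1) ?_))
  exact Primrec.eq.comp hg (primrec_tr (primrec_unpair_fst h0) (primrec_unpair_fst h1))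

/-- the characteristic function of the atomic diagram -/
theorem exists_index (hV : Primrec fun x : ℕ × ℕ × ℕ => V x.1 x.2.1 x.2.2) (ε : Bool) :
    ∃ a : ℕ → ℕ, Computable a ∧ ∀ n, IndexOf (a n) (Mod V n ε) := by
  classical
  -- characteristic function
  have hD : PrimrecPred fun x : (ℕ × At) × ℕ => MDom V x.1.1 ε x.2 :=
    primrec_MDom hV (Primrec.fst.comp Primrec.fst) (Primrec.const ε) Primrec.snd
  have hR : PrimrecPred fun x : (ℕ × At) × (ℕ × List ℕ) => MRel V x.1.1 ε x.2.1 x.2.2 :=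
    primrec_MRel hV (Primrec.fst.comp Primrec.fst) (Primrec.const ε)
      (Primrec.fst.comp Primrec.snd) (Primrec.snd.comp Primrec.snd)
  have g1 : Primrec₂ fun (x : ℕ × At) (u : ℕ) => if MDom V x.1 ε u then 1 else 0 :=
    Primrec.ite hD (Primrec.const 1) (Primrec.const 0)
  have g2 : Primrec₂ fun (x : ℕ × At) (z : ℕ × List ℕ) =>
      if MRel V x.1 ε z.1 z.2 then 1 else 0 :=
    Primrec.ite hR (Primrec.const 1) (Primrec.const 0)
  have hχ : Primrec fun x : ℕ × At =>
      (Sum.casesOn x.2 (fun u => if MDom V x.1 ε u then 1 else 0)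
        (fun z => if MRel V x.1 ε z.1 z.2 then 1 else 0) : ℕ) :=
    Primrec.sumCasesOn (f := fun x : ℕ × At => x.2) Primrec.snd g1 g2
  obtain ⟨c, hc⟩ := Code.exists_code.1 hχ.to_comp.partrec
  refine ⟨fun n => encode (Code.curry c n), ?_, ?_⟩
  · exact (Primrec.encode.comp (Code.primrec₂_curry.comp (Primrec.const c) Primrec.id)).to_comp
  · intro n q
    set χ : ℕ → At → ℕ := fun n q =>
      (Sum.casesOn q (fun u => if MDom V n ε u then 1 else 0)
        (fun z => if MRel V n ε z.1 z.2 then 1 else 0) : ℕ) with hχdef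
    have hval : Code.eval (ofNat Code (encode (Code.curry c n))) (encode q) =
        Part.some (χ n q) := by
      rw [ofNat_encode, Code.eval_curry, hc]
      have e1 : Nat.pair n (encode q) = encode (n, q) := rfl
      rw [e1]
      simp only [encodek, Part.coe_some, Part.bind_some]
      simp [hχdef]
    rw [hval]
    have hq : (Mod V n ε).Holds q → χ n q = 1 := by
      match q with
      | Sum.inl u => intro h; simp only [hχdef]; exact if_pos h
      | Sum.inr (g, l) => intro h; simp only [hχdef]; exact if_pos h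
    have hq' : ¬ (Mod V n ε).Holds q → χ n q = 0 := by
      match q with
      | Sum.inl u => intro h; simp only [hχdef]; exact if_neg h
      | Sum.inr (g, l) => intro h; simp only [hχdef]; exact if_neg h
    exact ⟨fun h => by rw [hq h], fun h => by rw [hq' h]⟩

end Pool.Agent.Helper941.IsoProb
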