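import Mathlib
import Pool.Agent.Helper941.Model

namespace Pool.Agent.Helper941.IsoProb

open Encodable Denumerable Nat.Partrec

variable {γ : Type} [Primcodable γ]

/-- label of an index -/
def LabI (e n : ℕ) : Prop := ∃ z : ℕ × ℕ × ℕ, Val 1 e (Sum.inr (z.1, [z.2.1, z.2.2])) ∧ gn z.1 = n

theorem labI_iff {e n : ℕ} {A : Str ar2} (h : IndexOf e A) : LabI e n ↔ Lab A n := by
  have hv := fun q => (index_val h q).1
  constructor
  · rintro ⟨⟨g, u, v⟩, h1, h2⟩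
    exact ⟨u, v, g, (hv _).1 h1, h2⟩
  · rintro ⟨u, v, g, h1, h2⟩
    exact ⟨⟨g, u, v⟩, (hv (Sum.inr (g, [u, v]))).2 h1, h2⟩

theorem sigma_LabI {e n : γ → ℕ} (he : Computable e) (hn : Computable n) :
    Sigma0 1 fun x => LabI (e x) (n x) := by
  have h : Sigma0 1 fun p : ℕ × ℕ => LabI p.1 p.2 := by
    unfold LabI
    refine Sigma0.ex' (n := 0) (P := fun y : (ℕ × ℕ) × (ℕ × ℕ × ℕ) =>
      Val 1 y.1.1 (Sum.inr (y.2.1, [y.2.2.1, y.2.2.2])) ∧ gn y.2.1 = y.1.2) ?_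
    have f1 {α β : Type} [Primcodable α] [Primcodable β] : Primrec (Prod.fst : α × β → α) :=
      Primrec.fst
    have f2 {α β : Type} [Primcodable α] [Primcodable β] : Primrec (Prod.snd : α × β → β) :=
      Primrec.snd
    refine Sigma0.and (sR 1 (f1.comp f1) (f1.comp f2) (f1.comp (f2.comp f2))
      (f2.comp (f2.comp f2))) (sP ?_)
    exact Primrec.eq.comp (primrec_gn (f1.comp f2)) (f2.comp f1)
  exact h.comp (Computable.pair he hn)

/-- difference of colours -/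
def Wd (z : ℕ × ℕ) : Prop :=
  ∃ y : (ℕ × Bool) × (ℕ × ℕ),
    Val 1 z.1.unpair.1.unpair.1
      (Sum.inr (mk 0 y.1.1 z.2 y.1.2, [z.1.unpair.2.unpair.1, y.2.1])) ∧
    Val 1 z.1.unpair.1.unpair.2
      (Sum.inr (mk 0 y.1.1 z.2 (!y.1.2), [z.1.unpair.2.unpair.2, y.2.2]))

theorem sigma_Wd : Sigma0 1 Wd := by
  unfold Wd
  have f1 {α β : Type} [Primcodable α] [Primcodable β] : Primrec (Prod.fst : α × β → α) :=
    Primrec.fst
  have f2 {α β : Type} [Primcodable α] [Primcodable β] : Primrec (Prod.snd : α × β → β) :=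
    Primrec.snd
  refine Sigma0.ex' (n := 0) (P := fun x : (ℕ × ℕ) × ((ℕ × Bool) × (ℕ × ℕ)) =>
    Val 1 x.1.1.unpair.1.unpair.1
      (Sum.inr (mk 0 x.2.1.1 x.1.2 x.2.1.2, [x.1.1.unpair.2.unpair.1, x.2.2.1])) ∧
    Val 1 x.1.1.unpair.1.unpair.2
      (Sum.inr (mk 0 x.2.1.1 x.1.2 (!x.2.1.2), [x.1.1.unpair.2.unpair.2, x.2.2.2]))) ?_
  have q : Primrec fun x : (ℕ × ℕ) × ((ℕ × Bool) × (ℕ × ℕ)) => x.1.1 := f1.comp f1
  have p : Primrec fun x : (ℕ × ℕ) × ((ℕ × Bool) × (ℕ × ℕ)) => x.1.2 := f2.comp f1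
  have n : Primrec fun x : (ℕ × ℕ) × ((ℕ × Bool) × (ℕ × ℕ)) => x.2.1.1 := f1.comp (f1.comp f2)
  have b : Primrec fun x : (ℕ × ℕ) × ((ℕ × Bool) × (ℕ × ℕ)) => x.2.1.2 := f2.comp (f1.comp f2)
  have w1 : Primrec fun x : (ℕ × ℕ) × ((ℕ × Bool) × (ℕ × ℕ)) => x.2.2.1 := f1.comp (f2.comp f2)
  have w2 : Primrec fun x : (ℕ × ℕ) × ((ℕ × Bool) × (ℕ × ℕ)) => x.2.2.2 := f2.comp (f2.comp f2)
  refine Sigma0.and (sR 1 ?_ ?_ ?_ w1) (sR 1 ?_ ?_ ?_ w2)
  · exact primrec_unpair_fst (primrec_unpair_fst q)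
  · exact primrec_mk (Primrec.const 0) n p b
  · exact primrec_unpair_fst (primrec_unpair_snd q)
  · exact primrec_unpair_snd (primrec_unpair_fst q)
  · exact primrec_mk (Primrec.const 0) n p (Primrec.not.comp b)
  · exact primrec_unpair_snd (primrec_unpair_snd q)

def qcode (a b u v : ℕ) : ℕ := Nat.pair (Nat.pair a b) (Nat.pair u v)

theorem primrec_qcode {a b u v : γ → ℕ} (ha : Primrec a) (hb : Primrec b) (hu : Primrec u)
    (hv : Primrec v) : Primrec fun x => qcode (a x) (b x) (u x) (v x) := by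
  unfold qcode
  exact Primrec₂.natPair.comp (Primrec₂.natPair.comp ha hb) (Primrec₂.natPair.comp hu hv)

theorem primrec_T {T : ℕ → ℕ → ℕ → ℕ → Bool}
    (hT : Primrec fun x : ℕ × ℕ × ℕ × ℕ => T x.1 x.2.1 x.2.2.1 x.2.2.2)
    {n q m s : γ → ℕ} (hn : Primrec n) (hq : Primrec q) (hm : Primrec m) (hs : Primrec s) :
    Primrec fun x => T (n x) (q x) (m x) (s x) :=
  hT.comp (Primrec.pair hn (Primrec.pair hq (Primrec.pair hm hs)))

section

variable {V : ℕ → ℕ → ℕ → Bool} {T : ℕ → ℕ → ℕ → ℕ → Bool}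

theorem Wd_iff {A B : Str ar2} (hA : InK V A) (hB : InK V B) {a b n : ℕ} (ha : IndexOf a A)
    (hb : IndexOf b B) (hnA : Lab A n) (hnB : Lab B n) {u v : ℕ} (hu : u ∈ A.dom) (hv : v ∈ B.dom)
    {x y : ℕ → Bool} (hx : ∀ p, Im A u (mk 0 n p (x p))) (hy : ∀ p, Im B v (mk 0 n p (y p)))
    {p : ℕ} (hp : InJn V n p) : Wd (qcode a b u v, p) ↔ x p ≠ y p := by
  have sx := im_shape hA hnA hu x hx
  have sy := im_shape hB hnB hv y hy
  have va := fun q => (index_val ha q).1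
  have vb := fun q => (index_val hb q).1
  unfold Wd qcode
  simp only [Nat.unpair_pair]
  have col : ∀ {A : Str ar2} {u : ℕ} {x : ℕ → Bool}, (∀ g, Im A u g ↔ Shape V n x g) →
      ∀ n' b, Im A u (mk 0 n' p b) → n' = n ∧ b = x p := by
    intro A u x hs n' b h
    have h2 := (hs _).1 h
    refine ⟨by simpa using h2.1, ?_⟩
    rcases h2.2 with ⟨s, hs'⟩ | h3
    · simp only [gp_mk] at hs'
      rw [hp s] at hs'
      exact absurd hs' (by simp)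
    · simpa using h3
  constructor
  · rintro ⟨⟨⟨n', β⟩, ⟨w, w'⟩⟩, h1, h2⟩ hxy
    simp only at h1 h2
    have c1 := col sx n' β ⟨w, (va _).1 h1⟩
    have c2 := col sy n' (!β) ⟨w', (vb _).1 h2⟩
    rw [← hxy, ← c1.2] at c2
    cases β <;> simp at c2
  · intro hne
    obtain ⟨w, hw⟩ := hx p
    obtain ⟨w', hw'⟩ := hy p
    refine ⟨⟨⟨n, x p⟩, ⟨w, w'⟩⟩, (va (Sum.inr (_, [_, _]))).2 hw, (vb (Sum.inr (_, [_, _]))).2 ?_⟩
    have : (!x p) = y p := by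
      cases h1 : x p <;> cases h2 : y p <;> simp_all
    rw [this]
    exact hw'

/-- non-isomorphism, as a formula -/
def NI (T : ℕ → ℕ → ℕ → ℕ → Bool) (n : ℕ) (p : ℕ × ℕ) : Prop :=
  ∃ z : ℕ × ℕ, (Val 1 p.1 (Sum.inl z.1) ∧ Val 1 p.2 (Sum.inl z.2)) ∧
    ∀ m S, ∃ s, S ≤ s ∧ T n (qcode p.1 p.2 z.1 z.2) m s = true

theorem sigma_NI (hT : Primrec fun x : ℕ × ℕ × ℕ × ℕ => T x.1 x.2.1 x.2.2.1 x.2.2.2) (n : ℕ) :
    Sigma0 3 (NI T n) := by
  unfold NI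
  have f1 {α β : Type} [Primcodable α] [Primcodable β] : Primrec (Prod.fst : α × β → α) :=
    Primrec.fst
  have f2 {α β : Type} [Primcodable α] [Primcodable β] : Primrec (Prod.snd : α × β → β) :=
    Primrec.snd
  refine Sigma0.ex' (n := 2) (P := fun x : (ℕ × ℕ) × (ℕ × ℕ) =>
    (Val 1 x.1.1 (Sum.inl x.2.1) ∧ Val 1 x.1.2 (Sum.inl x.2.2)) ∧
    ∀ m S, ∃ s, S ≤ s ∧ T n (qcode x.1.1 x.1.2 x.2.1 x.2.2) m s = true) ?_
  refine Sigma0.and ?_ ?_
  · exact (Sigma0.and (sD 1 (f1.comp f1) (f1.comp f2))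
      (sD 1 (f2.comp f1) (f2.comp f2))).succ.succ
  · refine Pi0.toSigma ?_
    refine Pi0.all (n := 1) (P := fun y : ((ℕ × ℕ) × (ℕ × ℕ)) × ℕ =>
      ∀ S, ∃ s, S ≤ s ∧ T n (qcode y.1.1.1 y.1.1.2 y.1.2.1 y.1.2.2) y.2 s = true) ?_
    refine Pi0.all (n := 1) (P := fun y : (((ℕ × ℕ) × (ℕ × ℕ)) × ℕ) × ℕ =>
      ∃ s, y.2 ≤ s ∧ T n (qcode y.1.1.1.1 y.1.1.1.2 y.1.1.2.1 y.1.1.2.2) y.1.2 s = true) ?_
    refine Sigma0.toPi ?_
    refine Sigma0.ex (n := 0) (P := fun y : ((((ℕ × ℕ) × (ℕ × ℕ)) × ℕ) × ℕ) × ℕ =>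
      y.1.2 ≤ y.2 ∧
        T n (qcode y.1.1.1.1.1 y.1.1.1.1.2 y.1.1.1.2.1 y.1.1.1.2.2) y.1.1.2 y.2 = true) (sP ?_)
    have c1 : Primrec fun y : ((((ℕ × ℕ) × (ℕ × ℕ)) × ℕ) × ℕ) × ℕ => y.1.1.1 :=
      f1.comp (f1.comp f1)
    have c2 : Primrec fun y : ((((ℕ × ℕ) × (ℕ × ℕ)) × ℕ) × ℕ) × ℕ => y.1.1.2 :=
      f2.comp (f1.comp f1)
    have c3 : Primrec fun y : ((((ℕ × ℕ) × (ℕ × ℕ)) × ℕ) × ℕ) × ℕ => y.1.2 := f2.comp f1
    have hTT : Primrec fun y : ((((ℕ × ℕ) × (ℕ × ℕ)) × ℕ) × ℕ) × ℕ =>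
        T n (qcode y.1.1.1.1.1 y.1.1.1.1.2 y.1.1.1.2.1 y.1.1.1.2.2) y.1.1.2 y.2 :=
      primrec_T hT (Primrec.const n) (primrec_qcode (f1.comp (f1.comp c1)) (f2.comp (f1.comp c1))
        (f1.comp (f2.comp c1)) (f2.comp (f2.comp c1))) c2 f2
    have hle : PrimrecPred fun y : ((((ℕ × ℕ) × (ℕ × ℕ)) × ℕ) × ℕ) × ℕ => y.1.2 ≤ y.2 :=
      Primrec.nat_le.comp c3 Primrec.snd
    have hTe : PrimrecPred fun y : ((((ℕ × ℕ) × (ℕ × ℕ)) × ℕ) × ℕ) × ℕ =>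
        T n (qcode y.1.1.1.1.1 y.1.1.1.1.2 y.1.1.1.2.1 y.1.1.1.2.2) y.1.1.2 y.2 = true :=
      primrec_bool hTT
    exact hle.and hTe

theorem sigma_iso (hI : Pi0 2 (IndexSet {A : Str ar2 | InK V A})) :
    Sigma0 3 (IsoProblem {A : Str ar2 | InK V A}) := by
  have f1 {α β : Type} [Primcodable α] [Primcodable β] : Primrec (Prod.fst : α × β → α) :=
    Primrec.fst
  have f2 {α β : Type} [Primcodable α] [Primcodable β] : Primrec (Prod.snd : α × β → β) :=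
    Primrec.snd
  have h1 : Sigma0 3 fun p : ℕ × ℕ => IndexSet {A : Str ar2 | InK V A} p.1 :=
    (hI.comp Computable.fst).toSigma
  have h2 : Sigma0 3 fun p : ℕ × ℕ => IndexSet {A : Str ar2 | InK V A} p.2 :=
    (hI.comp Computable.snd).toSigma
  have h3 : Sigma0 3 fun p : ℕ × ℕ => ∃ z : ℕ × ℕ,
      (Val 1 p.1 (Sum.inl z.1) ∧ Val 1 p.2 (Sum.inl z.2)) ∧
      ∀ g, ((∃ w, Val 1 p.1 (Sum.inr (g, [z.1, w]))) ↔
        (∃ w, Val 1 p.2 (Sum.inr (g, [z.2, w])))) := by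
    refine Sigma0.ex' (n := 2) (P := fun x : (ℕ × ℕ) × (ℕ × ℕ) =>
      (Val 1 x.1.1 (Sum.inl x.2.1) ∧ Val 1 x.1.2 (Sum.inl x.2.2)) ∧
      ∀ g, ((∃ w, Val 1 x.1.1 (Sum.inr (g, [x.2.1, w]))) ↔
        (∃ w, Val 1 x.1.2 (Sum.inr (g, [x.2.2, w]))))) ?_
    refine Sigma0.and ?_ ?_
    · exact (Sigma0.and (sD 1 (f1.comp f1) (f1.comp f2))
        (sD 1 (f2.comp f1) (f2.comp f2))).succ.succ
    · refine Pi0.toSigma ?_
      refine Pi0.all (n := 1) (P := fun y : ((ℕ × ℕ) × (ℕ × ℕ)) × ℕ =>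
        ((∃ w, Val 1 y.1.1.1 (Sum.inr (y.2, [y.1.2.1, w]))) ↔
        (∃ w, Val 1 y.1.1.2 (Sum.inr (y.2, [y.1.2.2, w]))))) ?_
      have s1 : Sigma0 1 fun y : ((ℕ × ℕ) × (ℕ × ℕ)) × ℕ =>
          ∃ w, Val 1 y.1.1.1 (Sum.inr (y.2, [y.1.2.1, w])) := by
        refine Sigma0.ex (n := 0) (P := fun r : (((ℕ × ℕ) × (ℕ × ℕ)) × ℕ) × ℕ =>
          Val 1 r.1.1.1.1 (Sum.inr (r.1.2, [r.1.1.2.1, r.2]))) ?_
        exact sR 1 (f1.comp (f1.comp (f1.comp f1))) (f2.comp f1)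
          (f1.comp (f2.comp (f1.comp f1))) f2
      have s2 : Sigma0 1 fun y : ((ℕ × ℕ) × (ℕ × ℕ)) × ℕ =>
          ∃ w, Val 1 y.1.1.2 (Sum.inr (y.2, [y.1.2.2, w])) := by
        refine Sigma0.ex (n := 0) (P := fun r : (((ℕ × ℕ) × (ℕ × ℕ)) × ℕ) × ℕ =>
          Val 1 r.1.1.1.2 (Sum.inr (r.1.2, [r.1.1.2.2, r.2]))) ?_
        exact sR 1 (f2.comp (f1.comp (f1.comp f1))) (f2.comp f1)
          (f2.comp (f2.comp (f1.comp f1))) f2
      have e1 := (s1.not.succ).or s2.toPi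
      have e2 := (s2.not.succ).or s1.toPi
      refine (e1.and e2).of_iff ?_
      intro y
      exact ⟨fun h => ⟨imp_iff_not_or.1 h.1, imp_iff_not_or.1 h.2⟩,
        fun h => ⟨imp_iff_not_or.2 h.1, imp_iff_not_or.2 h.2⟩⟩
  refine (h1.and (h2.and h3)).of_iff ?_
  rintro ⟨a, b⟩
  constructor
  · rintro ⟨A, hA, B, hB, ha, hb, hiso⟩
    refine ⟨⟨A, hA, ha⟩, ⟨B, hB, hb⟩, ?_⟩
    have va := fun q => (index_val ha q).1
    have vb := fun q => (index_val hb q).1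
    obtain ⟨f, hf⟩ := hiso
    obtain ⟨u, hu⟩ := A.dom_nonempty
    refine ⟨(u, (f ⟨u, hu⟩ : ℕ)), ⟨(va _).2 hu, (vb _).2 (f ⟨u, hu⟩).2⟩, fun g => ?_⟩
    constructor
    · rintro ⟨w, hw⟩
      have hw' : A.rel g [u, w] := (va _).1 hw
      exact ⟨_, (vb (Sum.inr (_, [_, _]))).2
        ((iso_rel hf g ⟨u, hu⟩ ⟨w, (rel_mem hw').2⟩).1 hw')⟩
    · rintro ⟨w, hw⟩
      have hw' : B.rel g [(f ⟨u, hu⟩ : ℕ), w] := (vb _).1 hw
      refine ⟨(f.symm ⟨w, (rel_mem hw').2⟩ : ℕ), (va (Sum.inr (_, [_, _]))).2 ?_⟩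
      refine (iso_rel hf g ⟨u, hu⟩ _).2 ?_
      simpa using hw'
  · rintro ⟨⟨A, hA, ha⟩, ⟨B, hB, hb⟩, ⟨⟨u, v⟩, ⟨hu, hv⟩, h⟩⟩
    have va := fun q => (index_val ha q).1
    have vb := fun q => (index_val hb q).1
    refine ⟨A, hA, B, hB, ha, hb, ?_⟩
    refine iso_of_im (V := V) hA hB (u := u) (v := v) ((va _).1 hu) ((vb _).1 hv) fun g => ?_
    have hg := h g
    constructor
    · rintro ⟨w, hw⟩
      obtain ⟨w', hw'⟩ := hg.1 ⟨w, (va (Sum.inr (_, [_, _]))).2 hw⟩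
      exact ⟨w', (vb _).1 hw'⟩
    · rintro ⟨w, hw⟩
      obtain ⟨w', hw'⟩ := hg.2 ⟨w, (vb (Sum.inr (_, [_, _]))).2 hw⟩
      exact ⟨w', (va _).1 hw'⟩

end

theorem main : ∃ K : Set (Str ar2),
    (∀ A B : Str ar2, A.Iso B → A ∈ K → B ∈ K) ∧
    Pi0 2 (IndexSet K) ∧
    Sigma0 3 (IsoProblem K) ∧ ¬ Pi0 3 (IsoProblem K) ∧
    ∃ S : ℕ → Prop, Sigma0 3 S ∧ ¬ ManyOneReducible S (IsoProblem K) := by
  classical
  obtain ⟨C, hC, hCinf, hCs⟩ := exists_simple 1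
  obtain ⟨V, T, hV, hT, hV0, hVm, hfin, hinf⟩ := exists_family hC sigma_Wd
  obtain ⟨SA, SB, hSA, hSB, hdis, hsep⟩ := exists_inseparable 1
  set K : Set (Str ar2) := {A | InK V A} with hK
  have hI : Pi0 2 (IndexSet K) := pi2_indexSet hV
  have hE : Sigma0 3 (IsoProblem K) := sigma_iso hI
  -- isomorphism inside one label
  have isoC : ∀ {A B : Str ar2} {n : ℕ}, InK V A → InK V B → Lab A n → Lab B n → C n →
      A.Iso B := by
    intro A B n hA hB hnA hnB hn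
    obtain ⟨u, hu⟩ := A.dom_nonempty
    obtain ⟨v, hv⟩ := B.dom_nonempty
    obtain ⟨x, hx⟩ := exists_color hA hnA hu
    obtain ⟨y, hy⟩ := exists_color hB hnB hv
    rw [iso_iff hA hB hnA hnB hu hv hx hy]
    obtain ⟨N, hN⟩ := hfin n hn
    exact ⟨N, fun p hp hJ => absurd (hN p hJ) (by omega)⟩
  -- the formula for non-isomorphism
  have niso : ∀ {A B : Str ar2} {n a b : ℕ}, InK V A → InK V B → Lab A n → Lab B n →
      IndexOf a A → IndexOf b B → ¬ C n → (NI T n (a, b) ↔ ¬ A.Iso B) := by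
    intro A B n a b hA hB hnA hnB ha hb hn
    have key : ∀ u v, u ∈ A.dom → v ∈ B.dom →
        ((∀ m S, ∃ s, S ≤ s ∧ T n (qcode a b u v) m s = true) ↔ ¬ A.Iso B) := by
      intro u v hu hv
      obtain ⟨x, hx⟩ := exists_color hA hnA hu
      obtain ⟨y, hy⟩ := exists_color hB hnB hv
      rw [iso_iff hA hB hnA hnB hu hv hx hy, ← (hinf n hn).2 (qcode a b u v)]
      push Not
      refine forall_congr' fun N => exists_congr fun p => and_congr_right fun _ => ?_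
      constructor
      · rintro ⟨hJ, hW⟩
        exact ⟨hJ, (Wd_iff hA hB ha hb hnA hnB hu hv hx hy hJ).1 hW⟩
      · rintro ⟨hJ, hW⟩
        exact ⟨hJ, (Wd_iff hA hB ha hb hnA hnB hu hv hx hy hJ).2 hW⟩
    have va := fun q => (index_val ha q).1
    have vb := fun q => (index_val hb q).1
    constructor
    · rintro ⟨⟨u, v⟩, ⟨hu, hv⟩, h⟩
      exact (key u v ((va _).1 hu) ((vb _).1 hv)).1 h
    · intro h
      obtain ⟨u, hu⟩ := A.dom_nonempty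
      obtain ⟨v, hv⟩ := B.dom_nonempty
      exact ⟨⟨u, v⟩, ⟨(va (Sum.inl u)).2 hu, (vb (Sum.inl v)).2 hv⟩, (key u v hu hv).2 h⟩
  refine ⟨K, fun A B h hA => InK.iso h hA, hI, hE, ?_, SA, hSA, ?_⟩
  · -- not Pi 3
    intro hpi
    obtain ⟨a, ha, hai⟩ := exists_index hV false
    obtain ⟨b, hb, hbi⟩ := exists_index hV true
    have hred : ∀ n, C n ↔ IsoProblem K (a n, b n) := by
      intro n
      have k1 : InK V (Mod V n false) := mod_inK hV0 hVm n false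
      have k2 : InK V (Mod V n true) := mod_inK hV0 hVm n true
      constructor
      · intro hn
        exact ⟨_, k1, _, k2, hai n, hbi n, isoC k1 k2 (mod_lab _ _) (mod_lab _ _) hn⟩
      · rintro ⟨A, hA, B, hB, hA1, hB1, hiso⟩
        rw [index_unique hA1 (hai n), index_unique hB1 (hbi n)] at hiso
        by_contra hn
        obtain ⟨N, hN⟩ := (iso_iff k1 k2 (mod_lab _ _) (mod_lab _ _) (base_mem n false)
          (base_mem n true) (mod_color n false) (mod_color n true)).1 hiso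
        obtain ⟨p, hp, hJ⟩ := (hinf n hn).1 N
        exact absurd (hN p hp hJ) (by simp)
    have : Pi0 3 C := by
      refine (hpi.comp (f := fun n => (a n, b n)) (Computable.pair ha hb)).of_iff hred
    have hfinite := hCs (fun x => ¬ C x) this (fun x h h' => h h')
    exact hCinf hfinite
  · -- not complete
    rintro ⟨f, hf, hfe⟩
    have hf1 : Computable fun x => (f x).1 := Computable.fst.comp hf
    have hf2 : Computable fun x => (f x).2 := Computable.snd.comp hf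
    -- the set of labels
    have hN : Sigma0 3 fun n : ℕ => ∃ x, SB x ∧ IndexSet K (f x).1 ∧ IndexSet K (f x).2 ∧
        LabI (f x).1 n ∧ LabI (f x).2 n := by
      refine Sigma0.ex (n := 2) (P := fun p : ℕ × ℕ => SB p.2 ∧ IndexSet K (f p.2).1 ∧
        IndexSet K (f p.2).2 ∧ LabI (f p.2).1 p.1 ∧ LabI (f p.2).2 p.1) ?_
      refine (hSB.comp Computable.snd).and ((hI.comp (hf1.comp Computable.snd)).toSigma.and
        ((hI.comp (hf2.comp Computable.snd)).toSigma.and (Sigma0.and ?_ ?_)))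
      · exact (sigma_LabI (hf1.comp Computable.snd) Computable.fst).succ.succ
      · exact (sigma_LabI (hf2.comp Computable.snd) Computable.fst).succ.succ
    have hNfin := hCs _ hN (by
      rintro n ⟨x, hx, ⟨A, hA, hAi⟩, ⟨B, hB, hBi⟩, hl1, hl2⟩ hn
      have l1 := (labI_iff hAi).1 hl1
      have l2 := (labI_iff hBi).1 hl2
      exact hdis x ((hfe x).2 ⟨A, hA, B, hB, hAi, hBi, isoC hA hB l1 l2 hn⟩) hx)
    obtain ⟨l, hl⟩ : ∃ l : List ℕ, ∀ n, n ∈ l ↔ (∃ x, SB x ∧ IndexSet K (f x).1 ∧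
        IndexSet K (f x).2 ∧ LabI (f x).1 n ∧ LabI (f x).2 n) := by
      refine ⟨hNfin.toFinset.toList, fun n => ?_⟩
      simp
    have hlC : ∀ n ∈ l, ¬ C n := by
      intro n hn hc
      obtain ⟨x, hx, ⟨A, hA, hAi⟩, ⟨B, hB, hBi⟩, hl1, hl2⟩ := (hl n).1 hn
      have l1 := (labI_iff hAi).1 hl1
      have l2 := (labI_iff hBi).1 hl2
      exact hdis x ((hfe x).2 ⟨A, hA, B, hB, hAi, hBi, isoC hA hB l1 l2 hc⟩) hx
    set D : ℕ → Prop := fun x => ¬ IndexSet K (f x).1 ∨ ¬ IndexSet K (f x).2 ∨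
      (∃ z : ℕ × ℕ, z.1 ≠ z.2 ∧ LabI (f x).1 z.1 ∧ LabI (f x).2 z.2) ∨
      ∃ n ∈ l, (LabI (f x).1 n ∧ LabI (f x).2 n) ∧ NI T n (f x) with hD
    have hlab : Sigma0 1 fun x : ℕ =>
        ∃ z : ℕ × ℕ, z.1 ≠ z.2 ∧ LabI (f x).1 z.1 ∧ LabI (f x).2 z.2 := by
      refine Sigma0.ex' (n := 0) (P := fun p : ℕ × (ℕ × ℕ) => p.2.1 ≠ p.2.2 ∧
        LabI (f p.1).1 p.2.1 ∧ LabI (f p.1).2 p.2.2) ?_
      refine Sigma0.and ?_ (Sigma0.and ?_ ?_)
      · exact sP (Primrec.eq.comp (Primrec.fst.comp Primrec.snd)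
          (Primrec.snd.comp Primrec.snd)).not
      · exact sigma_LabI (hf1.comp Computable.fst) (Computable.fst.comp Computable.snd)
      · exact sigma_LabI (hf2.comp Computable.fst) (Computable.snd.comp Computable.snd)
    have hD1 : Sigma0 3 D := by
      refine Sigma0.or ((hI.comp hf1).not.succ) (Sigma0.or ((hI.comp hf2).not.succ)
        (Sigma0.or hlab.succ.succ ?_))
      refine sigma0_list_ex _ l fun n _ => ?_
      refine Sigma0.and (Sigma0.and ?_ ?_) ((sigma_NI hT n).comp hf)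
      · exact (sigma_LabI hf1 (Computable.const n)).succ.succ
      · exact (sigma_LabI hf2 (Computable.const n)).succ.succ
    have hD2 : Pi0 3 D := by
      have h4 : Sigma0 3 fun x : ℕ => (IndexSet K (f x).1 ∧ IndexSet K (f x).2) ∧
          (¬ ∃ z : ℕ × ℕ, z.1 ≠ z.2 ∧ LabI (f x).1 z.1 ∧ LabI (f x).2 z.2) ∧
          ∀ n ∈ l, (¬ (LabI (f x).1 n ∧ LabI (f x).2 n)) ∨ IsoProblem K (f x) := by
        refine Sigma0.and (Sigma0.and (hI.comp hf1).toSigma (hI.comp hf2).toSigma)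
          (Sigma0.and ?_ ?_)
        · exact Pi0.toSigma hlab.not.succ
        · refine sigma0_list_all _ l fun n _ => ?_
          refine Sigma0.or ?_ (hE.comp hf)
          refine Pi0.toSigma (Pi0.succ ?_)
          exact (Sigma0.and (sigma_LabI hf1 (Computable.const n))
            (sigma_LabI hf2 (Computable.const n))).not
      refine h4.of_iff fun x => ?_
      simp only [hD, not_or, not_not]
      constructor
      · rintro ⟨⟨A, hA, hAi⟩, ⟨B, hB, hBi⟩, h3, h5⟩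
        refine ⟨⟨⟨A, hA, hAi⟩, ⟨B, hB, hBi⟩⟩, h3, fun n hn => ?_⟩
        by_cases hln : LabI (f x).1 n ∧ LabI (f x).2 n
        · right
          have l1 := (labI_iff hAi).1 hln.1
          have l2 := (labI_iff hBi).1 hln.2
          have h6 : ¬ NI T n ((f x).1, (f x).2) := fun h7 => h5 ⟨n, hn, hln, h7⟩
          rw [niso hA hB l1 l2 hAi hBi (hlC n hn), not_not] at h6
          exact ⟨A, hA, B, hB, hAi, hBi, h6⟩
        · exact Or.inl hln
      · rintro ⟨⟨⟨A, hA, hAi⟩, ⟨B, hB, hBi⟩⟩, h3, h5⟩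
        refine ⟨⟨A, hA, hAi⟩, ⟨B, hB, hBi⟩, h3, ?_⟩
        rintro ⟨n, hn, hln, h7⟩
        have l1 := (labI_iff hAi).1 hln.1
        have l2 := (labI_iff hBi).1 hln.2
        have h7' : NI T n ((f x).1, (f x).2) := h7
        rw [niso hA hB l1 l2 hAi hBi (hlC n hn)] at h7'
        rcases h5 n hn with h8 | ⟨A', _, B', _, hA', hB', hiso⟩
        · exact h8 hln
        · rw [index_unique hA' hAi, index_unique hB' hBi] at hiso
          exact h7' hiso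
    refine hsep D hD1 hD2 ?_ ?_
    · intro x hx
      by_contra hnD
      simp only [hD, not_or, not_not] at hnD
      obtain ⟨⟨A, hA, hAi⟩, ⟨B, hB, hBi⟩, h3, h5⟩ := hnD
      obtain ⟨n, hn⟩ := lab_exists hA
      obtain ⟨n', hn'⟩ := lab_exists hB
      have hnn : n = n' := by
        by_contra hne
        exact h3 ⟨(n, n'), hne, (labI_iff hAi).2 hn, (labI_iff hBi).2 hn'⟩
      subst hnn
      have hmem : n ∈ l := (hl n).2 ⟨x, hx, ⟨A, hA, hAi⟩, ⟨B, hB, hBi⟩,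
        (labI_iff hAi).2 hn, (labI_iff hBi).2 hn'⟩
      have h6 : ¬ NI T n ((f x).1, (f x).2) := fun h7 =>
        h5 ⟨n, hmem, ⟨(labI_iff hAi).2 hn, (labI_iff hBi).2 hn'⟩, h7⟩
      rw [niso hA hB hn hn' hAi hBi (hlC n hmem), not_not] at h6
      exact hdis x ((hfe x).2 ⟨A, hA, B, hB, hAi, hBi, h6⟩) hx
    · intro x hx hDx
      obtain ⟨A, hA, B, hB, hAi, hBi, hiso⟩ := (hfe x).1 hx
      rcases hDx with h | h | ⟨⟨n, n'⟩, hne, hl1, hl2⟩ | ⟨n, hn, hln, h7⟩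
      · exact h ⟨A, hA, hAi⟩
      · exact h ⟨B, hB, hBi⟩
      · have l1 := (labI_iff hAi).1 hl1
        have l2 := (labI_iff hBi).1 hl2
        exact hne (lab_unique hB (lab_iso hiso l1) l2)
      · have l1 := (labI_iff hAi).1 hln.1
        have l2 := (labI_iff hBi).1 hln.2
        have h7' : NI T n ((f x).1, (f x).2) := h7
        rw [niso hA hB l1 l2 hAi hBi (hlC n hn)] at h7'
        exact h7' hiso

end Pool.Agent.Helper941.IsoProb
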